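import Pool.Agent.Lib.MP_715eb0_an.AS.Spec

/-!
# MP_715eb0_an, AS, module ALI: separated times in a strip
-/

set_option autoImplicit false

open Pool.Agent.Lib.MP_715eb0_an.NC

namespace Pool.Agent.Lib.MP_715eb0_an.AS

namespace ALIM

lemma V_pos (p : ℕ × ℕ) : 0 < V p := by
  unfold V
  positivity

lemma log_V (p : ℕ × ℕ) : Real.log (V p : ℝ) = p.1 * Real.log 2 + p.2 * Real.log 3 := by
  unfold V
  push_cast
  rw [Real.log_mul (by positivity) (by positivity), Real.log_pow, Real.log_pow]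

/-- The gcd. -/
lemma gcd_V {n : ℕ} (p : Fin n → ℕ × ℕ) (J : Finset (Fin n)) (hJ : J.Nonempty) :
    ∃ i₀ j₀ : ℕ, J.gcd (fun j => V (p j)) = 2 ^ i₀ * 3 ^ j₀ ∧
      (∀ j ∈ J, i₀ ≤ (p j).1) ∧ (∀ j ∈ J, j₀ ≤ (p j).2) ∧
      (∃ j ∈ J, (p j).1 = i₀) ∧ (∃ j ∈ J, (p j).2 = j₀) := by
  classical
  obtain ⟨u, huJ, hu⟩ := J.exists_min_image (fun j => (p j).1) hJ
  obtain ⟨w, hwJ, hw⟩ := J.exists_min_image (fun j => (p j).2) hJ
  refine ⟨(p u).1, (p w).2, ?_, hu, hw, ⟨u, huJ, rfl⟩, ⟨w, hwJ, rfl⟩⟩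
  apply Nat.dvd_antisymm
  · have h1 : J.gcd (fun j => V (p j)) ∣ V (p u) := Finset.gcd_dvd huJ
    have h2 : J.gcd (fun j => V (p j)) ∣ V (p w) := Finset.gcd_dvd hwJ
    have h3 := Nat.dvd_gcd h1 h2
    have h4 : Nat.gcd (V (p u)) (V (p w)) = 2 ^ (p u).1 * 3 ^ (p w).2 := by
      obtain ⟨a, ha⟩ := Nat.exists_eq_add_of_le (hu w hwJ)
      obtain ⟨b, hb⟩ := Nat.exists_eq_add_of_le (hw u huJ)
      have e1 : V (p u) = (2 ^ (p u).1 * 3 ^ (p w).2) * 3 ^ b := by
        unfold V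
        rw [hb, pow_add]; ring
      have e2 : V (p w) = (2 ^ (p u).1 * 3 ^ (p w).2) * 2 ^ a := by
        unfold V
        rw [ha, pow_add]; ring
      rw [e1, e2, Nat.gcd_mul_left]
      have h5 : Nat.gcd (3 ^ b) (2 ^ a) = 1 :=
        Nat.Coprime.pow b a (by norm_num)
      rw [h5, mul_one]
    rwa [h4] at h3
  · apply Finset.dvd_gcd
    intro j hj
    unfold V
    exact mul_dvd_mul (pow_dvd_pow 2 (hu j hj)) (pow_dvd_pow 3 (hw j hj))

/-- The height in coordinates. -/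
lemma hgt_eq {n : ℕ} (p : Fin n → ℕ × ℕ) (J : Finset (Fin n)) (hJ : J.Nonempty) :
    ∃ i₀ j₀ : ℕ, (∀ j ∈ J, i₀ ≤ (p j).1) ∧ (∀ j ∈ J, j₀ ≤ (p j).2) ∧
      (∃ j ∈ J, (p j).1 = i₀) ∧ (∃ j ∈ J, (p j).2 = j₀) ∧
      (∀ j ∈ J, ((p j).1 - i₀ : ℝ) * Real.log 2 + ((p j).2 - j₀ : ℝ) * Real.log 3 ≤
        hgt J (fun j => V (p j))) ∧
      ∃ m ∈ J, hgt J (fun j => V (p j)) =
        ((p m).1 - i₀ : ℝ) * Real.log 2 + ((p m).2 - j₀ : ℝ) * Real.log 3 ∧
        ∀ j ∈ J, V (p j) ≤ V (p m) := by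
  classical
  obtain ⟨i₀, j₀, hg, h1, h2, h3, h4⟩ := gcd_V p J hJ
  obtain ⟨m, hmJ, hm⟩ := Finset.exists_mem_eq_sup J hJ (fun j => V (p j))
  have hle : ∀ j ∈ J, V (p j) ≤ V (p m) := by
    intro j hj
    have := Finset.le_sup (f := fun j => V (p j)) hj
    rw [hm] at this
    exact this
  have hlg : Real.log ((J.gcd (fun j => V (p j)) : ℕ) : ℝ) =
      i₀ * Real.log 2 + j₀ * Real.log 3 := by
    rw [hg]
    exact log_V (i₀, j₀)
  have hh : hgt J (fun j => V (p j)) =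
      ((p m).1 - i₀ : ℝ) * Real.log 2 + ((p m).2 - j₀ : ℝ) * Real.log 3 := by
    unfold hgt
    rw [hlg, hm, log_V]
    ring
  refine ⟨i₀, j₀, h1, h2, h3, h4, ?_, m, hmJ, hh, hle⟩
  intro j hj
  have h5 : Real.log (V (p j) : ℝ) ≤ Real.log (V (p m) : ℝ) := by
    apply Real.log_le_log
    · exact_mod_cast V_pos (p j)
    · exact_mod_cast hle j hj
  rw [log_V, log_V] at h5
  rw [hh]
  linarith

lemma log3_ge : 1 ≤ Real.log 3 := by
  rw [Real.le_log_iff_exp_le (by norm_num)]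
  have := Real.exp_one_lt_d9
  linarith

lemma log2_ge : 1 / 2 ≤ Real.log 2 := by
  have := Real.log_two_gt_d9
  linarith

lemma log2_le : Real.log 2 ≤ 1 := by
  have := Real.log_two_lt_d9
  linarith

lemma log6_lt : Real.log 2 + Real.log 3 < 2 := by
  rw [← Real.log_mul (by norm_num) (by norm_num), Real.log_lt_iff_lt_exp (by norm_num)]
  have h1 : Real.exp 2 = Real.exp 1 * Real.exp 1 := by
    rw [← Real.exp_add]; norm_num
  have h2 := Real.exp_one_gt_d9
  rw [h1]
  nlinarith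

end ALIM

open ALIM in
theorem specALI : SpecALI := by
  classical
  intro n p J s K hs hJ2 hsep hstrip
  have hJ : J.Nonempty := Finset.card_pos.1 (by omega)
  obtain ⟨i₀, j₀, hi₀, hj₀, -, -, hle, m, hmJ, hm, hmax⟩ := hgt_eq p J hJ
  set h := hgt J (fun j => V (p j)) with hh
  have hl3 := log3_ge
  have hl2 := log2_ge
  have hl2' := log2_le
  have hl6 := log6_lt
  -- the pairs
  have hpair : ∀ i ∈ J, ∀ j ∈ J, i ≠ j →
      2 * s ≤ |((p i).1 : ℝ) - (p j).1| * Real.log 2 + |((p i).2 : ℝ) - (p j).2| * Real.log 3 ∧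
      2 * s ≤ h := by
    intro i hi j hj hij
    have hne : ({i, j} : Finset (Fin n)).Nonempty := ⟨i, by simp⟩
    obtain ⟨a, b, ha, hb, ⟨u, hu, hua⟩, ⟨w, hw, hwb⟩, -, m', hm', hh', -⟩ := hgt_eq p {i, j} hne
    have h1 := hsep i hi j hj hij
    rw [hh'] at h1
    have hm'J : m' ∈ J := by
      rcases Finset.mem_insert.1 hm' with h2 | h2
      · rw [h2]; exact hi
      · rw [Finset.mem_singleton.1 h2]; exact hj
    have hA : ((p m').1 : ℝ) - a ≤ |((p i).1 : ℝ) - (p j).1| := by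
      rw [← hua]
      rcases Finset.mem_insert.1 hm' with h2 | h2 <;> rcases Finset.mem_insert.1 hu with h3 | h3
      · rw [h2, h3, sub_self]; exact abs_nonneg _
      · rw [h2, Finset.mem_singleton.1 h3]; exact le_abs_self _
      · rw [Finset.mem_singleton.1 h2, h3, abs_sub_comm]; exact le_abs_self _
      · rw [Finset.mem_singleton.1 h2, Finset.mem_singleton.1 h3, sub_self]; exact abs_nonneg _
    have hB : ((p m').2 : ℝ) - b ≤ |((p i).2 : ℝ) - (p j).2| := by
      rw [← hwb]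
      rcases Finset.mem_insert.1 hm' with h2 | h2 <;> rcases Finset.mem_insert.1 hw with h3 | h3
      · rw [h2, h3, sub_self]; exact abs_nonneg _
      · rw [h2, Finset.mem_singleton.1 h3]; exact le_abs_self _
      · rw [Finset.mem_singleton.1 h2, h3, abs_sub_comm]; exact le_abs_self _
      · rw [Finset.mem_singleton.1 h2, Finset.mem_singleton.1 h3, sub_self]; exact abs_nonneg _
    constructor
    · have e1 := mul_le_mul_of_nonneg_right hA (by linarith : (0 : ℝ) ≤ Real.log 2)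
      have e2 := mul_le_mul_of_nonneg_right hB (by linarith : (0 : ℝ) ≤ Real.log 3)
      linarith
    · have h4 := hle m' hm'J
      have h5 : (i₀ : ℝ) ≤ a := by
        rw [← hua]
        have : u ∈ J := by
          rcases Finset.mem_insert.1 hu with h2 | h2
          · rw [h2]; exact hi
          · rw [Finset.mem_singleton.1 h2]; exact hj
        exact_mod_cast hi₀ u this
      have h6 : (j₀ : ℝ) ≤ b := by
        rw [← hwb]
        have : w ∈ J := by
          rcases Finset.mem_insert.1 hw with h2 | h2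
          · rw [h2]; exact hi
          · rw [Finset.mem_singleton.1 h2]; exact hj
        exact_mod_cast hj₀ w this
      have e1 : (((p m').1 : ℝ) - a) * Real.log 2 ≤ (((p m').1 : ℝ) - i₀) * Real.log 2 :=
        mul_le_mul_of_nonneg_right (by linarith) (by linarith)
      have e2 : (((p m').2 : ℝ) - b) * Real.log 3 ≤ (((p m').2 : ℝ) - j₀) * Real.log 3 :=
        mul_le_mul_of_nonneg_right (by linarith) (by linarith)
      linarith
  -- the height is at least 2 s
  have hh2 : 2 * s ≤ h := by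
    obtain ⟨i, hi, j, hj, hij⟩ := Finset.one_lt_card.1 (by omega : 1 < J.card)
    exact (hpair i hi j hj hij).2
  -- the strip
  have hlow : ∀ j ∈ J, h - K * s ≤
      ((p j).1 - i₀ : ℝ) * Real.log 2 + ((p j).2 - j₀ : ℝ) * Real.log 3 := by
    intro j hj
    have h1 := hstrip m hmJ j hj
    rw [log_V, log_V] at h1
    rw [hm]
    linarith
  -- the map
  let A : Fin n → ℤ := fun j => ⌊(((p j).1 : ℝ) - i₀) / s⌋
  let L : ℤ → ℤ := fun a => ⌊(h - K * s - (a + 1) * s * Real.log 2) / Real.log 3 / s⌋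
  let B : Fin n → ℤ := fun j => ⌊(((p j).2 : ℝ) - j₀) / s⌋
  let N : ℤ := ⌊h / (s * Real.log 2)⌋
  have hl3pos : (0 : ℝ) < Real.log 3 := by linarith
  have hl2pos : (0 : ℝ) < Real.log 2 := by linarith
  have hmaps : ∀ j ∈ J, (A j, B j - L (A j)) ∈ (Finset.Icc (0 : ℤ) N) ×ˢ
      (Finset.Icc (0 : ℤ) (K + 1)) := by
    intro j hj
    have ha0 : (0 : ℝ) ≤ ((p j).1 : ℝ) - i₀ := by
      have : (i₀ : ℝ) ≤ (p j).1 := by exact_mod_cast hi₀ j hj
      linarith
    have hb0 : (0 : ℝ) ≤ ((p j).2 : ℝ) - j₀ := by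
      have : (j₀ : ℝ) ≤ (p j).2 := by exact_mod_cast hj₀ j hj
      linarith
    have hu := hle j hj
    have hl := hlow j hj
    have hA1 : ((A j : ℤ) : ℝ) ≤ (((p j).1 : ℝ) - i₀) / s := Int.floor_le _
    have hA2 : (((p j).1 : ℝ) - i₀) / s < (A j : ℤ) + 1 := Int.lt_floor_add_one _
    rw [le_div_iff₀ hs] at hA1
    rw [div_lt_iff₀ hs] at hA2
    rw [Finset.mem_product, Finset.mem_Icc, Finset.mem_Icc]
    refine ⟨⟨Int.floor_nonneg.2 (div_nonneg ha0 hs.le), ?_⟩, ?_, ?_⟩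
    · apply Int.floor_le_floor
      rw [div_le_div_iff₀ hs (by positivity)]
      have e1 : 0 ≤ (((p j).2 : ℝ) - j₀) * Real.log 3 := mul_nonneg hb0 hl3pos.le
      have e2 : (((p j).1 : ℝ) - i₀) * Real.log 2 ≤ h := by linarith
      calc (((p j).1 : ℝ) - i₀) * (s * Real.log 2)
          = ((((p j).1 : ℝ) - i₀) * Real.log 2) * s := by ring
        _ ≤ h * s := mul_le_mul_of_nonneg_right e2 hs.le
    · have hfl : L (A j) ≤ B j := by
        apply Int.floor_le_floor
        apply div_le_div_of_nonneg_right _ hs.le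
        rw [div_le_iff₀ hl3pos]
        have e1 : (((p j).1 : ℝ) - i₀) * Real.log 2 ≤ ((A j : ℤ) + 1) * s * Real.log 2 :=
          mul_le_mul_of_nonneg_right hA2.le hl2pos.le
        linarith
      linarith
    · have hB1 : ((B j : ℤ) : ℝ) ≤ (((p j).2 : ℝ) - j₀) / s := Int.floor_le _
      have hL1 : (h - K * s - (((A j : ℤ) : ℝ) + 1) * s * Real.log 2) / Real.log 3 / s <
          ((L (A j) : ℤ) : ℝ) + 1 := Int.lt_floor_add_one _
      have e1 : ((A j : ℤ) : ℝ) * s * Real.log 2 ≤ (((p j).1 : ℝ) - i₀) * Real.log 2 :=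
        mul_le_mul_of_nonneg_right hA1 hl2pos.le
      have e2 : (((p j).2 : ℝ) - j₀) * Real.log 3 ≤ h - ((A j : ℤ) : ℝ) * s * Real.log 2 := by
        linarith
      have e3 : (((p j).2 : ℝ) - j₀) / s ≤
          (h - ((A j : ℤ) : ℝ) * s * Real.log 2) / Real.log 3 / s := by
        apply div_le_div_of_nonneg_right _ hs.le
        rw [le_div_iff₀ hl3pos]
        exact e2
      have e4 : (h - ((A j : ℤ) : ℝ) * s * Real.log 2) / Real.log 3 / s =
          (h - K * s - (((A j : ℤ) : ℝ) + 1) * s * Real.log 2) / Real.log 3 / s +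
            (K + Real.log 2) / Real.log 3 := by
        field_simp
        ring
      have e5 : (K + Real.log 2) / Real.log 3 ≤ (K : ℝ) + 1 := by
        rw [div_le_iff₀ hl3pos]
        have hK : (0 : ℝ) ≤ K := Nat.cast_nonneg K
        nlinarith
      have e6 : ((B j : ℤ) : ℝ) < ((L (A j) : ℤ) : ℝ) + 1 + ((K : ℝ) + 1) := by
        linarith
      have e7 : B j < L (A j) + 1 + ((K : ℤ) + 1) := by exact_mod_cast e6
      linarith
  have hinj : Set.InjOn (fun j => (A j, B j - L (A j))) J := by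
    intro i hi j hj hij
    by_contra hne
    have h1 : A i = A j := congrArg Prod.fst hij
    have h2 : B i - L (A i) = B j - L (A j) := congrArg Prod.snd hij
    rw [h1] at h2
    have h3 : B i = B j := by linarith
    have hfl : ∀ x y : ℝ, ⌊x / s⌋ = ⌊y / s⌋ → |x - y| < s := by
      intro x y hxy
      have e1 := Int.abs_sub_lt_one_of_floor_eq_floor hxy
      rw [← sub_div, abs_div, abs_of_pos hs, div_lt_one hs] at e1
      exact e1
    have h4 := hfl _ _ h1
    have h5 := hfl _ _ h3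
    have h6 : (((p i).1 : ℝ) - i₀) - (((p j).1 : ℝ) - i₀) = ((p i).1 : ℝ) - (p j).1 := by ring
    have h7 : (((p i).2 : ℝ) - j₀) - (((p j).2 : ℝ) - j₀) = ((p i).2 : ℝ) - (p j).2 := by ring
    rw [h6] at h4
    rw [h7] at h5
    have h8 := (hpair i hi j hj hne).1
    nlinarith
  have hcard := Finset.card_le_card_of_injOn (fun j => (A j, B j - L (A j))) hmaps hinj
  rw [Finset.card_product, Int.card_Icc, Int.card_Icc] at hcard
  have hN0 : 0 ≤ N := Int.floor_nonneg.2 (div_nonneg (by linarith) (by positivity))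
  have hN1 : (N : ℝ) ≤ h / (s * Real.log 2) := Int.floor_le _
  have c1 : (((N + 1 - 0).toNat : ℕ) : ℝ) = (N : ℝ) + 1 := by
    have : (((N + 1 - 0).toNat : ℕ) : ℤ) = N + 1 := by
      rw [Int.toNat_of_nonneg (by linarith)]; ring
    exact_mod_cast this
  have c2 : ((((K : ℤ) + 1 + 1 - 0).toNat : ℕ) : ℝ) = (K : ℝ) + 2 := by
    have : ((((K : ℤ) + 1 + 1 - 0).toNat : ℕ) : ℤ) = K + 2 := by
      rw [Int.toNat_of_nonneg (by omega)]; ring
    exact_mod_cast this
  have hcardR : (J.card : ℝ) ≤ ((N : ℝ) + 1) * ((K : ℝ) + 2) := by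
    rw [← c1, ← c2]
    exact_mod_cast hcard
  have hK : (0 : ℝ) ≤ K := Nat.cast_nonneg K
  have hhs : 2 ≤ h / s := by
    rw [le_div_iff₀ hs]; exact hh2
  have d1 : h / (s * Real.log 2) ≤ 2 * (h / s) := by
    rw [div_le_iff₀ (by positivity)]
    have e1 : 2 * (h / s) * (s * Real.log 2) = 2 * h * Real.log 2 := by
      field_simp
    rw [e1]
    nlinarith
  have d2 : (N : ℝ) + 1 ≤ 4 * (h / s) := by linarith
  calc (J.card : ℝ) ≤ ((N : ℝ) + 1) * ((K : ℝ) + 2) := hcardR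
    _ ≤ (4 * (h / s)) * ((K : ℝ) + 3) := by
        apply mul_le_mul d2 (by linarith) (by linarith) (by linarith)
    _ = 4 * (K + 3) * (h / s) := by ring

end Pool.Agent.Lib.MP_715eb0_an.AS
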