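import Pool.Agent.Lib.MP_715eb0_an.AS.Spec

/-!
# MP_715eb0_an, concentration at all scales: a relation with small coefficients (module BUR)
-/

set_option autoImplicit false

open MeasureTheory
open Pool.Agent.Lib.MP_715eb0_an.NC

namespace Pool.Agent.Lib.MP_715eb0_an.AS

namespace BURM

/-- The Lagrange identity. -/
theorem lagrange {ι : Type} [Fintype ι] (x y : ι → ℤ) :
    ∑ i, ∑ j, (x i * y j - x j * y i) ^ 2 = 2 * gram x y := by
  have h1 : ∀ i j : ι, (x i * y j - x j * y i) ^ 2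
      = x i ^ 2 * y j ^ 2 - 2 * ((x i * y i) * (x j * y j)) + y i ^ 2 * x j ^ 2 := by
    intro i j; ring
  simp only [h1, Finset.sum_add_distrib, Finset.sum_sub_distrib, ← Finset.mul_sum,
    ← Finset.sum_mul]
  unfold gram
  ring

theorem l1_sq {ι : Type} [Fintype ι] (u : ι → ℤ) :
    l1 u ^ 2 ≤ (Fintype.card ι : ℤ) * ∑ i, u i ^ 2 := by
  unfold l1
  have h := sq_sum_le_card_mul_sum_sq (s := (Finset.univ : Finset ι)) (f := fun i => |u i|)
  simp only [sq_abs, Finset.card_univ] at h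
  exact h

theorem l1_le {ι : Type} [Fintype ι] (u : ι → ℤ) (T : ℝ) (h : ∀ i, |(u i : ℝ)| ≤ T) :
    (l1 u : ℝ) ≤ (Fintype.card ι : ℝ) * T := by
  unfold l1
  push_cast
  calc ∑ i, |(u i : ℝ)| ≤ ∑ _i : ι, T := Finset.sum_le_sum fun i _ => h i
    _ = (Fintype.card ι : ℝ) * T := by
        rw [Finset.sum_const, Finset.card_univ, nsmul_eq_mul]

theorem sumsq_le {ι : Type} [Fintype ι] (u : ι → ℝ) (T : ℝ) (h : ∀ i, |u i| ≤ T) :
    ∑ i, u i ^ 2 ≤ (Fintype.card ι : ℝ) * T ^ 2 := by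
  calc ∑ i, (u i) ^ 2 ≤ ∑ _i : ι, T ^ 2 := Finset.sum_le_sum fun i _ => by
        rw [← sq_abs]
        exact pow_le_pow_left₀ (abs_nonneg _) (h i) 2
    _ = (Fintype.card ι : ℝ) * T ^ 2 := by
        rw [Finset.sum_const, Finset.card_univ, nsmul_eq_mul]

theorem gram_real {ι : Type} [Fintype ι] (w K : ι → ℤ) (x : ℝ) :
    (gram w K : ℝ) ≤ (∑ i, (w i : ℝ) ^ 2) * ∑ i, (x * w i - K i) ^ 2 := by
  have h1 : ∑ i, (x * (w i : ℝ) - K i) ^ 2 =
      x ^ 2 * ∑ i, (w i : ℝ) ^ 2 - 2 * x * ∑ i, (w i : ℝ) * K i + ∑ i, (K i : ℝ) ^ 2 := by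
    rw [Finset.mul_sum, Finset.mul_sum, ← Finset.sum_sub_distrib, ← Finset.sum_add_distrib]
    refine Finset.sum_congr rfl fun i _ => ?_
    ring
  rw [h1]
  unfold gram
  push_cast
  nlinarith [sq_nonneg (x * ∑ i, (w i : ℝ) ^ 2 - ∑ i, (w i : ℝ) * K i)]

/-- The cases of the pigeonhole argument. -/
theorem core (hPIG : SpecPIG) (hRDU : SpecRDU) {ι : Type} [Fintype ι] (w K : ι → ℤ) (x : ℝ)
    (Λ M : ℝ) (n B : ℕ) (hm : 3 ≤ Fintype.card ι) (hmn : Fintype.card ι ≤ n)
    (hw : w ≠ 0) (hΛ : 1 ≤ Λ) (hwM : ∀ i, |(w i : ℝ)| ≤ M)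
    (hρ : ∀ i, |x * w i - K i| ≤ 2 / Λ) (hB : 1 ≤ B)
    (hbd : 10 * (n : ℝ) ^ 2 * M * Λ ^ (-(1 / 4) : ℝ) ≤ (B : ℝ) ^ (Fintype.card ι - 2)) :
    (∃ c : ι → ℤ, c ≠ 0 ∧ (∀ i, |c i| ≤ B) ∧ ∑ i, c i * w i = 0) ∨
    (∃ (D : ℕ) (κ : ℤ), 1 ≤ D ∧ (D : ℝ) ≤ Λ ^ (1 / 4 : ℝ) ∧
      |x - κ / D| * M ≤ 2 * Λ ^ (-(3 / 4) : ℝ) ∧ ∀ i, ∃ z : ℤ, w i = D * z) := by
  have hΛ0 : (0 : ℝ) < Λ := by linarith
  obtain ⟨i0, hi0⟩ : ∃ i, w i ≠ 0 := by
    by_contra hcon
    push Not at hcon
    exact hw (funext hcon)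
  have hM0 : 0 < M := lt_of_lt_of_le (abs_pos.2 (by exact_mod_cast hi0)) (hwM i0)
  have hmR : (3 : ℝ) ≤ (Fintype.card ι : ℝ) := by exact_mod_cast hm
  have hmnR : (Fintype.card ι : ℝ) ≤ n := by exact_mod_cast hmn
  set T : ℝ := Λ ^ (-(1 / 4) : ℝ) with hT
  have hT0 : (0 : ℝ) < T := Real.rpow_pos_of_pos hΛ0 _
  have hTΛ : 1 / Λ ≤ T := by
    rw [hT, one_div, ← Real.rpow_neg_one]
    exact Real.rpow_le_rpow_of_exponent_le hΛ (by norm_num)
  have hmm : (Fintype.card ι : ℝ) ≤ (n : ℝ) ^ 2 := by nlinarith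
  set m : ℝ := (Fintype.card ι : ℝ) with hmdef
  have hm0 : (0 : ℝ) ≤ m := by linarith
  by_cases hg : gram w K = 0
  · -- the degenerate case
    have hcol : ∀ i j, K i * w j = K j * w i := by
      have h := lagrange w K
      rw [hg, mul_zero] at h
      intro i j
      have h1 := (Finset.sum_eq_zero_iff_of_nonneg (fun i _ => Finset.sum_nonneg
        (fun j _ => sq_nonneg (w i * K j - w j * K i)))).1 h i (Finset.mem_univ i)
      have h2 := (Finset.sum_eq_zero_iff_of_nonneg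
        (fun j _ => sq_nonneg (w i * K j - w j * K i))).1 h1 j (Finset.mem_univ j)
      have h3 : w i * K j - w j * K i = 0 := by simpa using h2
      linarith
    obtain ⟨z, hz, hz1⟩ := Finset.extract_gcd w (s := Finset.univ) ⟨i0, Finset.mem_univ i0⟩
    set D : ℤ := Finset.univ.gcd w with hD
    have hDn : 0 ≤ D := by
      have h1 : normalize D = D := Finset.normalize_gcd
      exact Int.nonneg_of_normalize_eq_self h1
    have hzw : ∀ i, w i = D * z i := fun i => hz i (Finset.mem_univ i)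
    have hD0 : D ≠ 0 := by
      intro h0
      apply hi0
      rw [hzw, h0, zero_mul]
    have hzi0 : z i0 ≠ 0 := by
      intro h0
      apply hi0
      rw [hzw, h0, mul_zero]
    have hcolz : ∀ i j, K i * z j = K j * z i := by
      intro i j
      have h := hcol i j
      rw [hzw i, hzw j] at h
      have h2 : D * (K i * z j) = D * (K j * z i) := by linarith
      exact mul_left_cancel₀ hD0 h2
    have hdvd : z i0 ∣ K i0 := by
      have h1 : z i0 ∣ Finset.univ.gcd (fun i => K i0 * z i) := by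
        apply Finset.dvd_gcd
        intro i _
        rw [hcolz i0 i]
        exact Dvd.intro_left _ rfl
      rw [Finset.gcd_mul_left, hz1, mul_one] at h1
      exact (dvd_normalize_iff).1 h1
    obtain ⟨κ, hκ⟩ := hdvd
    have hkz : ∀ j, K j = κ * z j := by
      intro j
      have h := hcolz i0 j
      rw [hκ] at h
      have h2 : z i0 * K j = z i0 * (κ * z j) := by linarith
      exact mul_left_cancel₀ hzi0 h2
    have hznz : z ≠ 0 := fun h0 => hzi0 (by rw [h0]; rfl)
    by_cases hZ : ∀ i, |(z i : ℝ)| ≤ M * T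
    · left
      have key : 2 * (l1 z : ℝ) ≤ 10 * (n : ℝ) ^ 2 * M * T := by
        have hMq : m * (M * T) ≤ (n : ℝ) ^ 2 * (M * T) :=
          mul_le_mul_of_nonneg_right hmm (by positivity)
        have hpos : 0 ≤ (n : ℝ) ^ 2 * (M * T) := by positivity
        have h := l1_le z _ hZ
        rw [← hmdef] at h
        nlinarith
      have key2 : 2 * l1 z ≤ (B : ℤ) ^ (Fintype.card ι - 1) := by
        have h1 : 2 * (l1 z : ℝ) ≤ (B : ℝ) ^ (Fintype.card ι - 1) := by
          refine key.trans (hbd.trans ?_)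
          exact pow_le_pow_right₀ (by exact_mod_cast hB) (by omega)
        exact_mod_cast h1
      obtain ⟨c, hc0, hcB, hcz⟩ := (hPIG ι B hB).2 z hznz (by omega) key2
      refine ⟨c, hc0, hcB, ?_⟩
      calc ∑ i, c i * w i = D * ∑ i, c i * z i := by
            rw [Finset.mul_sum]
            refine Finset.sum_congr rfl fun i _ => ?_
            rw [hzw i]; ring
        _ = 0 := by rw [hcz, mul_zero]
    · right
      push Not at hZ
      obtain ⟨i1, hi1⟩ := hZ
      have hDpos : 0 < D := lt_of_le_of_ne hDn (Ne.symm hD0)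
      have hDnat : ((D.toNat : ℕ) : ℤ) = D := Int.toNat_of_nonneg hDn
      have hDR : ((D.toNat : ℕ) : ℝ) = (D : ℝ) := by exact_mod_cast hDnat
      have hDR0 : (0 : ℝ) < D := by exact_mod_cast hDpos
      have hz1pos : 0 < |(z i1 : ℝ)| := lt_of_le_of_lt (by positivity) hi1
      have hwz : |(w i1 : ℝ)| = D * |(z i1 : ℝ)| := by
        rw [hzw i1]
        push_cast
        rw [abs_mul, abs_of_pos hDR0]
      have hTT : T * Λ ^ (1 / 4 : ℝ) = 1 := by
        rw [hT, ← Real.rpow_add hΛ0]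
        norm_num
      have hΛq : 0 < Λ ^ (1 / 4 : ℝ) := Real.rpow_pos_of_pos hΛ0 _
      refine ⟨D.toNat, κ, by omega, ?_, ?_, ?_⟩
      · rw [hDR]
        have h1 : (D : ℝ) * (M * T) ≤ M := by
          calc (D : ℝ) * (M * T) ≤ D * |(z i1 : ℝ)| := mul_le_mul_of_nonneg_left hi1.le hDR0.le
            _ = |(w i1 : ℝ)| := hwz.symm
            _ ≤ M := hwM i1
        have h2 : (D : ℝ) * T ≤ 1 := by
          have h3 : M * ((D : ℝ) * T) ≤ M * 1 := by linarith
          exact le_of_mul_le_mul_left h3 hM0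
        calc (D : ℝ) = (D * T) * Λ ^ (1 / 4 : ℝ) := by rw [mul_assoc, hTT, mul_one]
          _ ≤ 1 * Λ ^ (1 / 4 : ℝ) := mul_le_mul_of_nonneg_right h2 hΛq.le
          _ = _ := one_mul _
      · rw [hDR]
        have h1 : (x - κ / D) * (w i1 : ℝ) = x * w i1 - K i1 := by
          rw [hkz i1, hzw i1]
          push_cast
          field_simp
        have h2 : |x - κ / D| * (D * |(z i1 : ℝ)|) ≤ 2 / Λ := by
          rw [← hwz, ← abs_mul, h1]
          exact hρ i1
        have hD1 : (1 : ℝ) ≤ D := by exact_mod_cast hDpos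
        have h3 : |x - κ / D| * (M * T) ≤ 2 / Λ := by
          refine le_trans ?_ h2
          apply mul_le_mul_of_nonneg_left _ (abs_nonneg _)
          nlinarith
        have h4 : |x - κ / D| * M = (|x - κ / D| * (M * T)) * Λ ^ (1 / 4 : ℝ) := by
          calc |x - κ / D| * M = |x - κ / D| * M * 1 := by ring
            _ = |x - κ / D| * M * (T * Λ ^ (1 / 4 : ℝ)) := by rw [hTT]
            _ = _ := by ring
        rw [h4]
        calc (|x - κ / D| * (M * T)) * Λ ^ (1 / 4 : ℝ) ≤ (2 / Λ) * Λ ^ (1 / 4 : ℝ) :=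
              mul_le_mul_of_nonneg_right h3 hΛq.le
          _ = 2 * (Λ ^ (-1 : ℝ) * Λ ^ (1 / 4 : ℝ)) := by rw [Real.rpow_neg_one]; ring
          _ = 2 * Λ ^ (-(3 / 4) : ℝ) := by
            rw [← Real.rpow_add hΛ0]
            norm_num
      · intro i
        exact ⟨z i, by rw [hDnat]; exact hzw i⟩
  · -- the main case
    left
    obtain ⟨u, u', hu, hu', huu, horth⟩ := hRDU ι w K hg
    have hG : (gram w K : ℝ) ≤ (2 * m * M * T) ^ 2 := by
      have h4 := sumsq_le (fun i => (w i : ℝ)) M hwM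
      have h5 := sumsq_le (fun i => x * w i - K i) _ hρ
      rw [← hmdef] at h4 h5
      have h6 : (∑ i, (w i : ℝ) ^ 2) * ∑ i, (x * w i - K i) ^ 2
          ≤ (m * M ^ 2) * (m * (2 / Λ) ^ 2) := by
        refine mul_le_mul h4 h5 ?_ (by positivity)
        exact Finset.sum_nonneg fun i _ => sq_nonneg _
      have h7 : (2 / Λ) ^ 2 ≤ (2 * T) ^ 2 := by
        apply pow_le_pow_left₀ (by positivity)
        have : 2 / Λ = 2 * (1 / Λ) := by ring
        rw [this]
        linarith
      have h8 : (m * M ^ 2) * (m * (2 / Λ) ^ 2) ≤ (m * M ^ 2) * (m * (2 * T) ^ 2) := by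
        apply mul_le_mul_of_nonneg_left _ (by positivity)
        exact mul_le_mul_of_nonneg_left h7 hm0
      calc (gram w K : ℝ) ≤ _ := gram_real w K x
        _ ≤ _ := h6
        _ ≤ _ := h8
        _ = _ := by ring
    have hprod : ((4 * (l1 u * l1 u') : ℤ) : ℝ) ≤ 10 * (n : ℝ) ^ 2 * M * T := by
      refine le_of_sq_le_sq ?_ (by positivity)
      have e1 := l1_sq u
      have e2 := l1_sq u'
      have hSu : (0 : ℤ) ≤ ∑ i, u i ^ 2 := Finset.sum_nonneg fun i _ => sq_nonneg _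
      have hSu' : (0 : ℤ) ≤ ∑ i, u' i ^ 2 := Finset.sum_nonneg fun i _ => sq_nonneg _
      have e3 : l1 u ^ 2 * l1 u' ^ 2 ≤ ((Fintype.card ι : ℤ) * ∑ i, u i ^ 2)
          * ((Fintype.card ι : ℤ) * ∑ i, u' i ^ 2) :=
        mul_le_mul e1 e2 (sq_nonneg _) (by positivity)
      have e4 : 3 * (l1 u ^ 2 * l1 u' ^ 2) ≤ (Fintype.card ι : ℤ) ^ 2 * (4 * gram w K) := by
        have := mul_le_mul_of_nonneg_left huu (sq_nonneg (Fintype.card ι : ℤ))
        linarith
      have e5 : 3 * ((l1 u : ℝ) ^ 2 * (l1 u' : ℝ) ^ 2) ≤ m ^ 2 * (4 * (gram w K : ℝ)) := by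
        rw [hmdef]; exact_mod_cast e4
      have e6 : m ^ 2 * (4 * (gram w K : ℝ))
          ≤ m ^ 2 * (4 * (2 * m * M * T) ^ 2) :=
        mul_le_mul_of_nonneg_left (by linarith) (sq_nonneg _)
      have e7 : m ^ 4 * (M * T) ^ 2 ≤ (n : ℝ) ^ 4 * (M * T) ^ 2 :=
        mul_le_mul_of_nonneg_right (pow_le_pow_left₀ hm0 hmnR 4) (sq_nonneg _)
      push_cast
      nlinarith [mul_nonneg (pow_nonneg hm0 4) (sq_nonneg (M * T))]
    have hprod2 : 4 * (l1 u * l1 u') ≤ (B : ℤ) ^ (Fintype.card ι - 2) := by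
      have h1 := hprod.trans hbd
      exact_mod_cast h1
    obtain ⟨c, hc0, hcB, h1, h2⟩ := (hPIG ι B hB).1 u u' hu hu' (by omega) hprod2
    exact ⟨c, hc0, hcB, (horth c h1 h2).1⟩

end BURM

open BURM in
/-- **BUR**. -/
theorem specBUR (hPIG : SpecPIG) (hRDU : SpecRDU) : SpecBUR := by
  classical
  intro n J v x y k Λ B hJ hv hinj hΛ hr hB hbd
  obtain ⟨j0, hj0⟩ : J.Nonempty := Finset.card_pos.1 (by omega)
  have hJn : J.card ≤ n := by
    have := Finset.card_le_univ J
    simpa using this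
  obtain ⟨v', hv', -⟩ := Finset.extract_gcd v (s := J) ⟨j0, hj0⟩
  set g : ℕ := J.gcd v with hg
  have hg0 : 0 < g := by
    rcases Nat.eq_zero_or_pos g with h0 | h0
    · have h1 := hv' j0 hj0
      rw [h0, zero_mul] at h1
      have := hv j0 hj0
      omega
    · exact h0
  have hsup : ∀ j ∈ J, v j ≤ J.sup v := fun j hj => Finset.le_sup (f := v) hj
  have hs0 : 0 < J.sup v := lt_of_lt_of_le (hv j0 hj0) (hsup j0 hj0)
  have hgR : (0 : ℝ) < g := by exact_mod_cast hg0
  have hsR : (0 : ℝ) < ((J.sup v : ℕ) : ℝ) := by exact_mod_cast hs0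
  have hM : Real.exp (hgt J v) = ((J.sup v : ℕ) : ℝ) / g := by
    unfold hgt
    rw [← hg, ← Real.log_div hsR.ne' hgR.ne', Real.exp_log (div_pos hsR hgR)]
  set M : ℝ := Real.exp (hgt J v) with hMdef
  have hv'M : ∀ j ∈ J, ((v' j : ℕ) : ℝ) ≤ M := by
    intro j hj
    rw [hM, le_div_iff₀ hgR]
    have h1 : g * v' j ≤ J.sup v := by rw [← hv' j hj]; exact hsup j hj
    have h2 : ((g * v' j : ℕ) : ℝ) ≤ ((J.sup v : ℕ) : ℝ) := by exact_mod_cast h1
    push_cast at h2
    linarith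
  have hΛ0 : 0 < Λ := by linarith
  have hcard : Fintype.card {j // j ∈ J.erase j0} = J.card - 1 := by
    rw [Fintype.card_coe, Finset.card_erase_of_mem hj0]
  have hmemJ : ∀ i : {j // j ∈ J.erase j0}, (i : Fin n) ∈ J :=
    fun i => Finset.mem_of_mem_erase i.2
  have hvR : ∀ j ∈ J, (v j : ℝ) = g * v' j := by
    intro j hj
    have h1 := hv' j hj
    exact_mod_cast h1
  have hwne : (fun i : {j // j ∈ J.erase j0} => ((v' i : ℤ) - v' j0)) ≠ 0 := by
    obtain ⟨j1, hj1⟩ : (J.erase j0).Nonempty := by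
      apply Finset.card_pos.1
      rw [Finset.card_erase_of_mem hj0]; omega
    intro h0
    have h1 := congrFun h0 ⟨j1, hj1⟩
    simp only [Pi.zero_apply] at h1
    have h2 : v' j1 = v' j0 := by
      have : (v' j1 : ℤ) = v' j0 := by linarith
      exact_mod_cast this
    have h3 : v j1 = v j0 := by
      rw [hv' j1 (Finset.mem_of_mem_erase hj1), hv' j0 hj0, h2]
    have h4 := hinj (Finset.mem_coe.2 (Finset.mem_of_mem_erase hj1)) (Finset.mem_coe.2 hj0) h3
    exact (Finset.ne_of_mem_erase hj1) h4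
  rcases core hPIG hRDU
    (fun i : {j // j ∈ J.erase j0} => ((v' i : ℤ) - v' j0)) (fun i => k i - k j0) (g * x)
    Λ M n B (by rw [hcard]; omega) (by rw [hcard]; omega) hwne hΛ
    (by
      intro i
      have h1 := hv'M i (hmemJ i)
      have h2 := hv'M j0 hj0
      have h3 : (0 : ℝ) ≤ ((v' i : ℕ) : ℝ) := Nat.cast_nonneg _
      have h4 : (0 : ℝ) ≤ ((v' j0 : ℕ) : ℝ) := Nat.cast_nonneg _
      push_cast
      rw [abs_le]
      constructor <;> linarith)
    (by
      intro i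
      have h1 := hr i (hmemJ i)
      have h2 := hr j0 hj0
      rw [hvR i (hmemJ i)] at h1
      rw [hvR j0 hj0] at h2
      have e : g * x * (((v' i : ℤ) - v' j0 : ℤ) : ℝ) - ((k i - k j0 : ℤ) : ℝ) =
          (g * v' i * x - y - k i) - (g * v' j0 * x - y - k j0) := by
        push_cast; ring
      rw [e]
      calc |(g * v' i * x - y - k i) - (g * v' j0 * x - y - k j0)| ≤
            |g * v' i * x - y - k i| + |g * v' j0 * x - y - k j0| := abs_sub _ _
        _ ≤ 1 / Λ + 1 / Λ := add_le_add h1 h2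
        _ = 2 / Λ := by ring)
    hB
    (by
      rw [hcard]
      have : J.card - 1 - 2 = J.card - 3 := by omega
      rw [this]
      exact hbd) with ⟨c, hc0, hcB, hcw⟩ | ⟨D, κ, hD1, hDΛ, hδ, hz⟩
  · left
    -- extend the coefficients
    have hn1 : (1 : ℤ) ≤ n := by
      have : 1 ≤ n := by omega
      exact_mod_cast this
    have hB0 : (0 : ℤ) ≤ B := Int.natCast_nonneg _
    let C : Fin n → ℤ := fun j => if h : j ∈ J.erase j0 then c ⟨j, h⟩ else
      if j = j0 then - ∑ i, c i else 0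
    have hC1 : ∀ i : {j // j ∈ J.erase j0}, C i = c i := by
      intro i
      show (if h : (i : Fin n) ∈ J.erase j0 then c ⟨i, h⟩ else
        if (i : Fin n) = j0 then - ∑ i, c i else 0) = c i
      rw [dif_pos i.2]
    have hC2 : C j0 = - ∑ i, c i := by
      show (if h : j0 ∈ J.erase j0 then c ⟨j0, h⟩ else
        if j0 = j0 then - ∑ i, c i else 0) = _
      rw [dif_neg (Finset.notMem_erase j0 J), if_pos rfl]
    have hC3 : ∀ j ∉ J, C j = 0 := by
      intro j hj
      show (if h : j ∈ J.erase j0 then c ⟨j, h⟩ else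
        if j = j0 then - ∑ i, c i else 0) = 0
      rw [dif_neg (fun h => hj (Finset.mem_of_mem_erase h)), if_neg]
      rintro rfl
      exact hj hj0
    refine ⟨C, ?_, hC3, ?_, ?_⟩
    · intro h0
      apply hc0
      funext i
      rw [← hC1 i, h0]
      rfl
    · intro j
      by_cases hj : j ∈ J.erase j0
      · have h1 := hC1 ⟨j, hj⟩
        simp only at h1
        rw [h1]
        have h2 := hcB ⟨j, hj⟩
        nlinarith
      · by_cases hj' : j = j0
        · rw [hj', hC2, abs_neg]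
          have h1 : |∑ i, c i| ≤ ∑ i, |c i| := Finset.abs_sum_le_sum_abs _ _
          have h2 : ∑ i, |c i| ≤ ∑ _i : {j // j ∈ J.erase j0}, (B : ℤ) :=
            Finset.sum_le_sum fun i _ => hcB i
          rw [Finset.sum_const, Finset.card_univ, nsmul_eq_mul, hcard] at h2
          have h3 : ((J.card - 1 : ℕ) : ℤ) ≤ n := by
            have : J.card - 1 ≤ n := by omega
            exact_mod_cast this
          have h4 := mul_le_mul_of_nonneg_right h3 hB0
          linarith
        · have h1 : C j = 0 := by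
            apply hC3
            intro hjJ
            exact hj (Finset.mem_erase.2 ⟨hj', hjJ⟩)
          rw [h1, abs_zero]
          positivity
    · have h1 : ∑ j, C j * (v j : ℤ) = ∑ j ∈ J, C j * (v j : ℤ) := by
        symm
        apply Finset.sum_subset (Finset.subset_univ J)
        intro j _ hj
        rw [hC3 j hj, zero_mul]
      rw [h1, ← Finset.add_sum_erase J _ hj0, hC2]
      have h2 : ∑ j ∈ J.erase j0, C j * (v j : ℤ)
          = ∑ i : {j // j ∈ J.erase j0}, c i * (v i : ℤ) := by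
        rw [← Finset.sum_coe_sort]
        exact Finset.sum_congr rfl fun i _ => by rw [hC1 i]
      rw [h2, neg_mul, Finset.sum_mul, ← Finset.sum_neg_distrib, ← Finset.sum_add_distrib]
      have h3 : ∀ i : {j // j ∈ J.erase j0}, -(c i * (v j0 : ℤ)) + c i * (v i : ℤ)
          = g * (c i * ((v' i : ℤ) - v' j0)) := by
        intro i
        have e1 : ((v i : ℕ) : ℤ) = g * v' i := by exact_mod_cast hv' i (hmemJ i)
        have e2 : ((v j0 : ℕ) : ℤ) = g * v' j0 := by exact_mod_cast hv' j0 hj0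
        rw [e1, e2]; ring
      rw [Finset.sum_congr rfl fun i _ => h3 i, ← Finset.mul_sum, hcw, mul_zero]
  · right
    have hDR : (0 : ℝ) < D := by
      have : 0 < D := by omega
      exact_mod_cast this
    refine ⟨D, (v' j0 : ℤ) * κ, (g * x - κ / D) / g, hD1, hDΛ, ?_⟩
    intro j hj
    constructor
    · by_cases hjj : j = j0
      · refine ⟨0, ?_⟩
        rw [hjj, hvR j0 hj0]
        push_cast
        field_simp
        ring
      · obtain ⟨z, hz'⟩ := hz ⟨j, Finset.mem_erase.2 ⟨hjj, hj⟩⟩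
        refine ⟨z * κ, ?_⟩
        have hz2 : ((v' j : ℕ) : ℝ) - v' j0 = D * z := by
          have h1 : ((v' j : ℕ) : ℤ) - v' j0 = D * z := hz'
          exact_mod_cast h1
        have hz3 : ((v' j : ℕ) : ℝ) = v' j0 + D * z := by linarith
        rw [hvR j hj]
        push_cast
        rw [hz3]
        field_simp
        ring
    · have e : (v j : ℝ) * ((g * x - κ / D) / g) = v' j * (g * x - κ / D) := by
        rw [hvR j hj]
        field_simp
      rw [e, abs_mul, abs_of_nonneg (Nat.cast_nonneg _)]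
      calc ((v' j : ℕ) : ℝ) * |g * x - κ / D| ≤ M * |g * x - κ / D| :=
            mul_le_mul_of_nonneg_right (hv'M j hj) (abs_nonneg _)
        _ = |g * x - κ / D| * M := mul_comm _ _
        _ ≤ _ := hδ

end Pool.Agent.Lib.MP_715eb0_an.AS
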