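import Pool.Agent.Lib.MP_715eb0_an.AS.Spec
import Pool.Agent.Lib.MP_715eb0_an.NC.CNT

/-!
# CNS: the proportion of the times near a point but not very near a rational point
-/

set_option autoImplicit false

open Pool.Agent.Lib.MP_715eb0_an.NC
open Pool.Agent.Lib.MP_d0e829_nt

namespace Pool.Agent.Lib.MP_715eb0_an.AS

namespace CNSM

open Finset Pool.Agent.Lib.MP_715eb0_an.NC.CNTM

lemma mem_box {s : ℝ} {L : ℕ} (hs : s < L * Real.log 2) {x y : ℕ × ℕ} (hL : 1 ≤ L)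
    (h : x = y ∨ hh x y < 2 * s) : x ∈ CNTM.box L y := by
  have h2 : 0 < Real.log 2 := Real.log_pos (by norm_num)
  rcases h with h | h
  · rw [h]
    unfold CNTM.box
    rw [mem_product, mem_Ico, mem_Ico]
    omega
  · have key : ∀ t : ℕ, (t : ℝ) * Real.log 2 ≤ hh x y → t < 2 * L := by
      intro t ht
      have h3 : (t : ℝ) * Real.log 2 < (2 * L : ℝ) * Real.log 2 := by linarith
      have h4 := lt_of_mul_lt_mul_right h3 h2.le
      exact_mod_cast h4
    have a1 : x.1 < y.1 + 2 * L := by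
      rcases le_total y.1 x.1 with h3 | h3
      · have := key _ (hh_ge x y h3)
        omega
      · omega
    have a2 : y.1 < x.1 + 2 * L := by
      rcases le_total x.1 y.1 with h3 | h3
      · have := key _ (by rw [hh_comm]; exact hh_ge y x h3)
        omega
      · omega
    have b1 : x.2 < y.2 + 2 * L := by
      rcases le_total y.2 x.2 with h3 | h3
      · have := key _ (hh_ge2 x y h3)
        omega
      · omega
    have b2 : y.2 < x.2 + 2 * L := by
      rcases le_total x.2 y.2 with h3 | h3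
      · have := key _ (by rw [hh_comm]; exact hh_ge2 y x h3)
        omega
      · omega
    unfold CNTM.box
    rw [mem_product, mem_Ico, mem_Ico]
    omega

end CNSM

open CNSM Finset in
/-- CNS -/
theorem specCNS (hEXS : SpecEXS) : SpecCNS := by
  classical
  intro ε K hε
  obtain ⟨κ, hκ⟩ := hEXS
  obtain ⟨A₀, hA₀⟩ := exists_nat_ge (32 * κ * (K + 1) / ε)
  set A : ℕ := A₀ + 1 with hA
  have hA1 : 1 ≤ A := by omega
  have hAκ : 32 * (κ : ℝ) * (K + 1) ≤ ε * A := by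
    rw [div_le_iff₀ hε] at hA₀
    have h1 : (A₀ : ℝ) ≤ A := by rw [hA]; push_cast; linarith
    have h2 : (A₀ : ℝ) * ε ≤ A * ε := mul_le_mul_of_nonneg_right h1 hε.le
    linarith
  obtain ⟨Λ₁, hΛ₁, hex⟩ := hκ K (2 * A) (by omega)
  refine ⟨max Λ₁ 4, lt_of_lt_of_le hΛ₁ (le_max_left _ _), fun Λ hΛ => ?_⟩
  have hΛa : Λ₁ ≤ Λ := (le_max_left _ _).trans hΛ
  have hΛ4 : 4 ≤ Λ := (le_max_right _ _).trans hΛ
  have hl2 : 0 < Real.log 2 := Real.log_pos (by norm_num)
  set s : ℝ := Real.log Λ with hs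
  have hlog4 : 2 * Real.log 2 ≤ s := by
    have h1 : Real.log ((2 : ℝ) ^ 2) ≤ Real.log Λ := Real.log_le_log (by norm_num) (by linarith)
    rw [Real.log_pow] at h1
    push_cast at h1
    exact h1
  have hs0 : 0 < s := by linarith
  set L : ℕ := ⌊s / Real.log 2⌋₊ + 1 with hL
  have hLpos : 1 ≤ L := by omega
  have hlog1 : s < L * Real.log 2 := by
    have h1 := Nat.lt_floor_add_one (s / Real.log 2)
    rw [div_lt_iff₀ hl2] at h1
    rw [hL]
    push_cast
    exact h1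
  have hlog2 : L * Real.log 2 ≤ s + Real.log 2 := by
    have h1 := Nat.floor_le (show 0 ≤ s / Real.log 2 by positivity)
    rw [le_div_iff₀ hl2] at h1
    rw [hL]
    push_cast
    linarith
  refine ⟨A * L, Nat.mul_pos (by omega) (by omega), fun x y => ?_⟩
  set P : Finset (ℕ × ℕ) := (range (A * L) ×ˢ range (A * L)).filter
    (fun p => (∃ k : ℤ, |(V p : ℝ) * x - y - k| ≤ 1 / Λ) ∧
      ∀ (D : ℕ) (b : ℤ), 1 ≤ D → (D : ℝ) ≤ Λ ^ (1 / 4 : ℝ) →
        (Λ ^ K)⁻¹ < |(V p : ℝ) * x - b / D|) with hP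
  have hsub : {p : ℕ × ℕ | p.1 < A * L ∧ p.2 < A * L ∧
      (∃ k : ℤ, |(V p : ℝ) * x - y - k| ≤ 1 / Λ) ∧
      ∀ (D : ℕ) (b : ℤ), 1 ≤ D → (D : ℝ) ≤ Λ ^ (1 / 4 : ℝ) →
        (Λ ^ K)⁻¹ < |(V p : ℝ) * x - b / D|} ⊆ (P : Set (ℕ × ℕ)) := by
    rintro p ⟨h1, h2, h3⟩
    rw [hP, coe_filter]
    exact ⟨mem_product.mpr ⟨mem_range.mpr h1, mem_range.mpr h2⟩, h3⟩
  have hncard : ((Set.ncard {p : ℕ × ℕ | p.1 < A * L ∧ p.2 < A * L ∧
      (∃ k : ℤ, |(V p : ℝ) * x - y - k| ≤ 1 / Λ) ∧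
      ∀ (D : ℕ) (b : ℤ), 1 ≤ D → (D : ℝ) ≤ Λ ^ (1 / 4 : ℝ) →
        (Λ ^ K)⁻¹ < |(V p : ℝ) * x - b / D|} : ℕ) : ℝ) ≤ (P.card : ℝ) := by
    have h1 := Set.ncard_le_ncard hsub P.finite_toSet
    rw [Set.ncard_coe_finset] at h1
    exact_mod_cast h1
  refine hncard.trans ?_
  obtain ⟨P', hP'P, hsep, hcov⟩ := CNTM.exists_sep P (2 * s)
  -- the covering
  have hcard1 : P.card ≤ P'.card * (4 * L * (4 * L)) := by
    have h1 : P ⊆ P'.biUnion (CNTM.box L) := by
      intro x hx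
      obtain ⟨z, hz, h⟩ := hcov x hx
      exact mem_biUnion.mpr ⟨z, hz, mem_box hlog1 hLpos h⟩
    exact (card_le_card h1).trans (card_biUnion_le_card_mul _ _ _ fun z _ => CNTM.card_box L z)
  -- the number of separated points
  have hcard2 : (P'.card : ℝ) ≤ κ * (K + 1) * ((2 * A : ℕ) : ℝ) := by
    have hk : ∀ z : P', ∃ k : ℤ, |(V z.1 : ℝ) * x - y - k| ≤ 1 / Λ := by
      intro z
      exact (mem_filter.mp (hP'P z.2)).2.1
    choose k hk using hk
    have hr : ∀ z : P', z.1.1 < A * L ∧ z.1.2 < A * L := by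
      intro z
      have h1 := mem_product.mp (mem_filter.mp (hP'P z.2)).1
      exact ⟨mem_range.mp h1.1, mem_range.mp h1.2⟩
    refine hex Λ hΛa x y P'.card (fun j => (P'.equivFin.symm j).1)
      (fun j => k (P'.equivFin.symm j)) ?_ (fun j => hk _) ?_ ?_
    · intro j
      refine (CNTM.log_V_le (hr (P'.equivFin.symm j)).1 (hr (P'.equivFin.symm j)).2).trans ?_
      have h1 : 2.6 * (L * Real.log 2) ≤ 4 * s := by linarith
      have h2 : (A : ℝ) * (2.6 * (L * Real.log 2)) ≤ A * (4 * s) :=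
        mul_le_mul_of_nonneg_left h1 (Nat.cast_nonneg _)
      push_cast
      linarith
    · intro i j hij
      rw [CNTM.hgt_pair i j (fun j => ((P'.equivFin.symm j).1 : ℕ × ℕ))]
      refine hsep _ (P'.equivFin.symm i).2 _ (P'.equivFin.symm j).2 fun h => hij ?_
      exact P'.equivFin.symm.injective (Subtype.ext h)
    · intro j
      exact (mem_filter.mp (hP'P (P'.equivFin.symm j).2)).2.2
  have hLr : (0 : ℝ) < L := by exact_mod_cast hLpos
  have hAr : (0 : ℝ) < A := by exact_mod_cast hA1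
  have h1 : (P.card : ℝ) ≤ P'.card * (4 * L * (4 * L)) := by exact_mod_cast hcard1
  have h2 : (P'.card : ℝ) * (4 * L * (4 * L)) ≤
      κ * (K + 1) * ((2 * A : ℕ) : ℝ) * (4 * L * (4 * L)) :=
    mul_le_mul_of_nonneg_right hcard2 (by positivity)
  have h3 : κ * (K + 1) * ((2 * A : ℕ) : ℝ) * (4 * L * (4 * L)) =
      (32 * (κ : ℝ) * (K + 1)) * (A * L ^ 2) := by
    push_cast
    ring
  have h4 : (32 * (κ : ℝ) * (K + 1)) * (A * L ^ 2) ≤ (ε * A) * (A * L ^ 2) :=
    mul_le_mul_of_nonneg_right hAκ (by positivity)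
  have h5 : ε * ((A * L : ℕ) : ℝ) ^ 2 = (ε * A) * (A * L ^ 2) := by
    push_cast
    ring
  rw [h5]
  linarith

end Pool.Agent.Lib.MP_715eb0_an.AS
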