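import Pool.Agent.Lib.MP_715eb0_an.AS.Spec
import Pool.Agent.Lib.MP_715eb0_an.NC.EXT

/-!
# MP_715eb0_an, all scales: few separated times (module EXS)
-/

set_option autoImplicit false

open Pool.Agent.Lib.MP_715eb0_an.NC

namespace Pool.Agent.Lib.MP_715eb0_an.AS

namespace EXSM

open Pool.Agent.Lib.MP_715eb0_an.NC.EXTM

/-- The extremal argument for a fixed number of points. -/
theorem core (κ K W : ℕ) (hW : 1 ≤ W) (hBUR : SpecBUR) (hALI : SpecALI)
    (hVAN : ∀ (N : ℕ) (δ : ℝ), 0 < δ → δ < 1 → ∃ h₀ : ℝ, 0 ≤ h₀ ∧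
    ∀ (p : Fin N → ℕ × ℕ) (c : Fin N → ℤ) (B : ℝ), 1 ≤ B → c ≠ 0 → (∀ j, |(c j : ℝ)| ≤ B) →
      ∑ j, c j * (V (p j) : ℤ) = 0 →
      ∃ I : Finset (Fin N), 2 ≤ I.card ∧ (∀ j ∈ I, c j ≠ 0) ∧
        (1 - δ) * hgt I (fun j => V (p j)) ≤ (I.card + κ : ℝ) * Real.log B + h₀)
    (n : ℕ) (hn : (32 * (κ + 3) + 32 : ℝ) * (K + 1) * W < n) :
    ∃ Λ₀ : ℝ, 1 < Λ₀ ∧ ∀ Λ : ℝ, Λ₀ ≤ Λ →
    ∀ (x y : ℝ) (p : Fin n → ℕ × ℕ) (k : Fin n → ℤ),
      (∀ j, Real.log (V (p j)) ≤ 2 * W * Real.log Λ) →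
      (∀ j, |(V (p j) : ℝ) * x - y - k j| ≤ 1 / Λ) →
      (∀ i j, i ≠ j → 2 * Real.log Λ ≤ hgt {i, j} (fun j => V (p j))) →
      (∀ (j : Fin n) (D : ℕ) (b : ℤ), 1 ≤ D → (D : ℝ) ≤ Λ ^ (1 / 4 : ℝ) →
        (Λ ^ K)⁻¹ < |(V (p j) : ℝ) * x - b / D|) → False := by
  classical
  have hWR : (1 : ℝ) ≤ W := by exact_mod_cast hW
  have hκR : (0 : ℝ) ≤ κ := Nat.cast_nonneg _
  have hKR : (0 : ℝ) ≤ K := Nat.cast_nonneg _
  set δ : ℝ := 1 / (32 * W) with hδdef
  have hδ : 0 < δ := by positivity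
  have hδ1 : δ < 1 := by
    rw [hδdef, div_lt_one (by positivity)]
    nlinarith
  obtain ⟨h₀, hh₀, hvan⟩ := hVAN n δ hδ hδ1
  have hn32 : 32 * (κ + 3) * W ≤ (n : ℝ) := by
    have h1 : (0 : ℝ) ≤ (32 * (κ + 3) + 32) * K * W := by positivity
    have h2 : (0 : ℝ) ≤ 32 * (W : ℝ) := by positivity
    nlinarith
  have hn96 : (96 : ℝ) ≤ n := by nlinarith
  have hn1 : (1 : ℝ) ≤ n := by linarith
  have hn96' : 96 ≤ n := by exact_mod_cast hn96
  set P : ℝ := Real.log (10 * (n : ℝ) ^ 2) with hPdef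
  have hP0 : 0 ≤ P := Real.log_nonneg (by nlinarith)
  set lB : ℝ := Real.log n + Real.log 2 with hlB
  have hlB0 : 0 ≤ lB := add_nonneg (Real.log_nonneg hn1) (Real.log_nonneg (by norm_num))
  set C : ℝ := P + (lB + h₀) with hC
  have hC0 : 0 ≤ C := by positivity
  refine ⟨Real.exp (2 * n * C / (1 / 4) + 4), ?_, ?_⟩
  · have : 0 < 2 * (n : ℝ) * C / (1 / 4) + 4 := by positivity
    exact Real.one_lt_exp_iff.2 this
  intro Λ hΛ x y p k hlog hr hsep hrat
  have hexp : (0 : ℝ) < Real.exp (2 * n * C / (1 / 4) + 4) := Real.exp_pos _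
  have hΛ0 : 0 < Λ := lt_of_lt_of_le hexp hΛ
  set L : ℝ := Real.log Λ with hLdef
  have hL4 : 2 * n * C / (1 / 4) + 4 ≤ L := by
    have h2 := Real.log_le_log hexp hΛ
    rw [Real.log_exp] at h2
    exact h2
  have hnC : 0 ≤ 2 * (n : ℝ) * C / (1 / 4) := by positivity
  have hL0 : 0 < L := by linarith
  have hLbig : 2 * n * C / (1 / 4) < L := by linarith
  have hΛ1 : 1 < Λ := (Real.log_pos_iff hΛ0.le).1 hL0
  set v : Fin n → ℕ := fun j => V (p j) with hv
  have hv0 : ∀ j, 0 < v j := fun j => V_pos _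
  have hlow : ∀ J : Finset (Fin n), 2 ≤ J.card → 2 * L ≤ hgt J v := by
    intro J hJ
    obtain ⟨i, hi, j, hj, hij⟩ := Finset.one_lt_card.1 (by omega : 1 < J.card)
    refine (hsep i j hij).trans (hgt_mono hv0 ⟨i, by simp⟩ ?_)
    intro x hx
    simp only [Finset.mem_insert, Finset.mem_singleton] at hx
    rcases hx with rfl | rfl
    · exact hi
    · exact hj
  have hup : ∀ J : Finset (Fin n), 2 ≤ J.card → hgt J v ≤ 2 * W * L := by
    intro J hJ
    exact hgt_le hv0 (Finset.card_pos.1 (by omega)) _ hlog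
  -- the extremal subset
  obtain ⟨J, hJmem, hJmax⟩ := Finset.exists_max_image
    (Finset.univ.filter fun J : Finset (Fin n) => 2 ≤ J.card)
    (fun J => ((J.card : ℝ) + κ) / hgt J v) ⟨Finset.univ, by simp; omega⟩
  have hJ2 : 2 ≤ J.card := by simpa using hJmem
  set hJ : ℝ := hgt J v with hhJ
  have hJlow : 2 * L ≤ hJ := hlow J hJ2
  have hJup : hJ ≤ 2 * W * L := hup J hJ2
  have hJ0 : 0 < hJ := by linarith
  have hcJn : (J.card : ℝ) ≤ n := by
    have : J.card ≤ n := by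
      have := Finset.card_le_univ J
      simpa using this
    exact_mod_cast this
  have hcJ0 : (2 : ℝ) ≤ J.card := by exact_mod_cast hJ2
  have hθn : (n : ℝ) / (2 * W * L) ≤ ((J.card : ℝ) + κ) / hJ := by
    have hu2 : 2 ≤ (Finset.univ : Finset (Fin n)).card := by simp; omega
    have h1 := hJmax Finset.univ (by simp; omega)
    refine le_trans ?_ h1
    have h2 := hup Finset.univ hu2
    have h3 := hlow Finset.univ hu2
    have h4 : 0 < hgt Finset.univ v := by linarith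
    simp only [Finset.card_univ, Fintype.card_fin]
    exact div_le_div₀ (by linarith) (by linarith) h4 h2
  have hKL : 0 < 2 * (W : ℝ) * L := by positivity
  have hnJ : (n : ℝ) * hJ ≤ ((J.card : ℝ) + κ) * (2 * W * L) := by
    rwa [div_le_div_iff₀ hKL hJ0] at hθn
  have hJ4 : 4 ≤ J.card := by
    have h2 : (n : ℝ) * (2 * L) ≤ ((J.card : ℝ) + κ) * (2 * W * L) :=
      (mul_le_mul_of_nonneg_left hJlow (by linarith)).trans hnJ
    have h3 : (n : ℝ) ≤ ((J.card : ℝ) + κ) * W := by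
      have h4 : (n : ℝ) * (2 * L) ≤ (((J.card : ℝ) + κ) * W) * (2 * L) := by linarith
      exact le_of_mul_le_mul_right h4 (by linarith)
    have h6 : (32 * ((κ : ℝ) + 3)) * W ≤ ((J.card : ℝ) + κ) * W := by linarith
    have h7 : 32 * ((κ : ℝ) + 3) ≤ (J.card : ℝ) + κ :=
      le_of_mul_le_mul_right h6 (by linarith)
    have h8 : (4 : ℝ) ≤ J.card := by linarith
    exact_mod_cast h8
  have hcJ4 : (4 : ℝ) ≤ J.card := by exact_mod_cast hJ4
  have hm1 : 1 ≤ J.card - 3 := by omega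
  have hmcast : ((J.card - 3 : ℕ) : ℝ) = (J.card : ℝ) - 3 := by
    rw [Nat.cast_sub (by omega)]; norm_num
  -- the choice of `B`
  have hX : Real.log (10 * (n : ℝ) ^ 2 * Real.exp hJ * Λ ^ (-(1 / 4) : ℝ)) =
      P + hJ - 1 / 4 * L := by
    rw [Real.log_mul (by positivity) (by positivity), Real.log_mul (by positivity) (by positivity),
      Real.log_exp, Real.log_rpow hΛ0]
    ring
  have hX1 : 1 ≤ 10 * (n : ℝ) ^ 2 * Real.exp hJ * Λ ^ (-(1 / 4) : ℝ) := by
    rw [← Real.log_nonneg_iff (by positivity), hX]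
    linarith
  obtain ⟨B, hB1, hBX, hBlog⟩ := choose_B _ hX1 (J.card - 3) hm1
  rw [hX, hmcast] at hBlog
  have hBR : (1 : ℝ) ≤ B := by exact_mod_cast hB1
  -- the relation or the alignment
  rcases hBUR n J v x y k Λ B hJ4 (fun j _ => hv0 j)
    (by
      intro i _ j _ hij
      by_contra hne
      have h1 := hsep i j hne
      rw [hgt_pair_eq _ i j hij] at h1
      linarith)
    hΛ1.le (fun j _ => hr j) hB1 hBX with hrel | hali
  · obtain ⟨c, hc0, hcJ, hcB, hcv⟩ := hrel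
    have hnB : 1 ≤ (n : ℝ) * B := by nlinarith
    obtain ⟨I, hI2, -, hIle⟩ := hvan p c (n * B) hnB hc0
      (by
        intro j
        have := hcB j
        exact_mod_cast this)
      hcv
    have hIcard : (2 : ℝ) ≤ I.card := by exact_mod_cast hI2
    have hIlow := hlow I hI2
    have hI0 : 0 < hgt I v := by linarith
    have hImax := hJmax I (by simp; omega)
    have hIge : ((I.card : ℝ) + κ) * (hJ / ((J.card : ℝ) + κ)) ≤ hgt I v := by
      rw [div_le_div_iff₀ hI0 hJ0] at hImax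
      rw [← mul_div_assoc, div_le_iff₀ (by linarith)]
      linarith
    have hmain : (1 - δ) * (hJ / ((J.card : ℝ) + κ)) ≤
        lB + (P + hJ - 1 / 4 * L) / ((J.card : ℝ) - 3) + h₀ := by
      have h1 : (1 - δ) * (((I.card : ℝ) + κ) * (hJ / ((J.card : ℝ) + κ)))
          ≤ (I.card + κ : ℝ) * Real.log (n * B) + h₀ :=
        (mul_le_mul_of_nonneg_left hIge (by linarith)).trans hIle
      have h2 : Real.log ((n : ℝ) * B) = Real.log n + Real.log B :=
        Real.log_mul (by linarith) (by linarith)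
      have h3 : ((I.card : ℝ) + κ) * ((1 - δ) * (hJ / ((J.card : ℝ) + κ)))
          ≤ ((I.card : ℝ) + κ) * (Real.log (n * B) + h₀) := by
        nlinarith
      have h4 := le_of_mul_le_mul_left h3 (by linarith)
      rw [h2] at h4
      rw [hlB]
      linarith
    refine final κ hJ J.card n L (1 / 4) δ K C P lB h₀ hκR hJ0 hcJ4 hcJn hL0 (by norm_num) hδ hδ1
      hP0 hh₀ hC hlB0 hmain ?_ ?_ hLbig
    · -- `δ * hJ ≤ L / 16`
      have h1 : δ * hJ ≤ δ * (2 * W * L) := mul_le_mul_of_nonneg_left hJup hδ.le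
      have h2 : δ * (2 * W * L) = 1 / 4 / 4 * L := by
        rw [hδdef]; field_simp; norm_num
      linarith
    · -- `(κ + 3) / θ ≤ L / 16`
      have hck : (0 : ℝ) < (J.card : ℝ) + κ := by linarith
      rw [← mul_div_assoc, div_le_iff₀ hck]
      have h2 : 32 * ((κ : ℝ) + 3) * W * hJ ≤ n * hJ :=
        mul_le_mul_of_nonneg_right hn32 hJ0.le
      have h4 : (W : ℝ) * (((κ : ℝ) + 3) * hJ) ≤ W * (1 / 4 / 4 * L * ((J.card : ℝ) + κ)) := by
        linarith
      exact le_of_mul_le_mul_left h4 (by linarith)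
  · obtain ⟨D, b, d, hD1, hDΛ, hD⟩ := hali
    have hΛK : 0 < Λ ^ K := by positivity
    have hDR : (0 : ℝ) < D := by exact_mod_cast hD1
    have hlowd : ∀ j ∈ J, (Λ ^ K)⁻¹ < |(v j : ℝ) * d| := by
      intro j hj
      obtain ⟨⟨m, hm⟩, -⟩ := hD j hj
      have h1 := hrat j D (b + m * D) hD1 hDΛ
      have h2 : (V (p j) : ℝ) * x - ((b + m * D : ℤ) : ℝ) / D = (v j : ℝ) * d := by
        rw [← hm]
        push_cast
        field_simp
        ring
      rwa [h2] at h1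
    have hstrip : ∀ i ∈ J, ∀ j ∈ J,
        Real.log (V (p i)) ≤ Real.log (V (p j)) + K * L := by
      intro i hi j hj
      have h1 := (hD i hi).2
      have h2 := hlowd j hj
      have hvi : (0 : ℝ) < v i := by exact_mod_cast hv0 i
      have hvj : (0 : ℝ) < v j := by exact_mod_cast hv0 j
      have hd0 : 0 < |d| := by
        rcases eq_or_ne d 0 with h | h
        · rw [h] at h2
          simp only [mul_zero, abs_zero] at h2
          exact absurd h2 (not_lt.2 (by positivity))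
        · exact abs_pos.2 h
      rw [abs_mul, abs_of_pos hvi] at h1
      rw [abs_mul, abs_of_pos hvj] at h2
      have h34 : 2 * Λ ^ (-(3 / 4) : ℝ) ≤ 1 := by
        rw [Real.rpow_neg hΛ0.le, ← div_eq_mul_inv, div_le_one (by positivity)]
        have e1 : Λ ^ (3 / 4 : ℝ) = Real.exp (3 / 4 * L) := by
          rw [Real.rpow_def_of_pos hΛ0, hLdef, mul_comm]
        rw [e1]
        have e2 : (3 / 4 * L + 1) ≤ Real.exp (3 / 4 * L) := Real.add_one_le_exp _
        linarith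
      have h3 : (v i : ℝ) * |d| ≤ 1 := h1.trans h34
      have h5 : (v i : ℝ) * |d| ≤ (Λ ^ K * v j) * |d| := by
        have h6 : 1 ≤ Λ ^ K * (v j * |d|) := by
          have := mul_le_mul_of_nonneg_left h2.le hΛK.le
          rwa [mul_inv_cancel₀ hΛK.ne'] at this
        linarith
      have h7 : (v i : ℝ) ≤ Λ ^ K * v j := le_of_mul_le_mul_right h5 hd0
      have h8 := Real.log_le_log hvi h7
      rw [Real.log_mul hΛK.ne' hvj.ne', Real.log_pow] at h8
      have h9 : Real.log (V (p i)) = Real.log (v i) := rfl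
      have h10 : Real.log (V (p j)) = Real.log (v j) := rfl
      rw [h9, h10]
      linarith
    have hcard := hALI n p J L K hL0 hJ2 (fun i _ j _ hij => hsep i j hij) hstrip
    -- `|J| ≤ 4 (K + 3) h / L`, `n h ≤ (|J| + κ) 2 W L`
    have hcard' : (J.card : ℝ) * L ≤ 4 * (K + 3) * hJ := by
      have h1 : hgt J (fun j => V (p j)) = hJ := rfl
      rw [h1, ← mul_div_assoc, le_div_iff₀ hL0] at hcard
      exact hcard
    have h1 : (n : ℝ) * hJ ≤ (4 * (K + 3) * hJ + κ * L) * (2 * W) := by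
      have h2 : ((J.card : ℝ) + κ) * (2 * W * L) = ((J.card : ℝ) * L + κ * L) * (2 * W) := by ring
      rw [h2] at hnJ
      refine hnJ.trans (mul_le_mul_of_nonneg_right (by linarith) (by positivity))
    have h2 : (κ : ℝ) * L ≤ κ * hJ := mul_le_mul_of_nonneg_left (by linarith) hκR
    have h3 : (n : ℝ) * hJ ≤ ((4 * (K + 3) + κ) * (2 * W)) * hJ := by
      refine h1.trans ?_
      have h4 : (4 * ((K : ℝ) + 3) * hJ + κ * L) * (2 * W) ≤
          (4 * (K + 3) * hJ + κ * hJ) * (2 * W) :=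
        mul_le_mul_of_nonneg_right (by linarith) (by positivity)
      linarith
    have h4 : (n : ℝ) ≤ (4 * (K + 3) + κ) * (2 * W) := le_of_mul_le_mul_right h3 hJ0
    have h5 : (4 * ((K : ℝ) + 3) + κ) * 2 ≤ (32 * (κ + 3) + 32) * (K + 1) := by nlinarith
    have h6 : (4 * ((K : ℝ) + 3) + κ) * 2 * W ≤ (32 * (κ + 3) + 32) * (K + 1) * W :=
      mul_le_mul_of_nonneg_right h5 (by linarith)
    linarith

end EXSM

open EXSM Pool.Agent.Lib.MP_715eb0_an.NC.EXTM in
/-- **EXS**. -/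
theorem specEXS (hVAN : NC.SpecVAN) (hBUR : SpecBUR) (hALI : SpecALI) : SpecEXS := by
  obtain ⟨κ, hκ⟩ := hVAN
  refine ⟨32 * (κ + 3) + 32, ?_⟩
  intro K W hW
  set n₀ : ℕ := (32 * (κ + 3) + 32) * (K + 1) * W + 1 with hn₀
  obtain ⟨Λ₀, hΛ₀, hcore⟩ := core κ K W hW hBUR hALI hκ n₀ (by rw [hn₀]; push_cast; linarith)
  refine ⟨Λ₀, hΛ₀, ?_⟩
  intro Λ hΛ x y n p k hlog hr hsep hrat
  by_contra hcon
  push Not at hcon
  have hn0 : n₀ ≤ n := by
    have h1 : (((32 * (κ + 3) + 32) * (K + 1) * W : ℕ) : ℝ) < n := by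
      push_cast
      push_cast at hcon
      linarith
    have h2 : (32 * (κ + 3) + 32) * (K + 1) * W < n := by exact_mod_cast h1
    omega
  refine hcore Λ hΛ x y (fun j => p (Fin.castLE hn0 j)) (fun j => k (Fin.castLE hn0 j))
    (fun j => hlog _) (fun j => hr _) ?_ (fun j => hrat _)
  intro i j hij
  rw [hgt_pair (fun x => V (p x)) (Fin.castLE hn0) i j]
  exact hsep _ _ (fun h => hij (Fin.castLE_injective hn0 h))

end Pool.Agent.Lib.MP_715eb0_an.AS
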