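import Pool.Agent.Lib.MP_715eb0_an.AS.Spec

/-!
# MP_715eb0, AS, module FNL: the theorem
-/

set_option autoImplicit false

open MeasureTheory
open Pool.Agent.Lib.MP_715eb0_an.NC

namespace Pool.Agent.Lib.MP_715eb0_an.AS

namespace FNLM

theorem sep {s : ℝ} (hs : 0 < s) (t t' : T) (h1 : 0 < addOrderOf t)
    (h2 : (addOrderOf t : ℝ) ≤ s) (h1' : 0 < addOrderOf t') (h2' : (addOrderOf t' : ℝ) ≤ s)
    (hne : t ≠ t') : 1 / s ^ 2 ≤ dist t t' := by
  have hu : t - t' ≠ 0 := sub_ne_zero.2 hne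
  have hd : addOrderOf (t - t') ∣ addOrderOf t * addOrderOf t' := by
    have h := (AddCommute.all t (-t')).addOrderOf_add_dvd_mul_addOrderOf
    rwa [addOrderOf_neg, ← sub_eq_add_neg] at h
  have hpos : 0 < addOrderOf t * addOrderOf t' := Nat.mul_pos h1 h1'
  have hle : addOrderOf (t - t') ≤ addOrderOf t * addOrderOf t' := Nat.le_of_dvd hpos hd
  have hfin : IsOfFinAddOrder (t - t') := by
    rw [← addOrderOf_pos_iff]
    exact Nat.pos_of_dvd_of_pos hd hpos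
  have h3 := AddCircle.le_add_order_smul_norm_of_isOfFinAddOrder hfin hu
  rw [nsmul_eq_mul] at h3
  have h4 : (addOrderOf (t - t') : ℝ) ≤ s * s := by
    have h5 : (addOrderOf (t - t') : ℝ) ≤ (addOrderOf t : ℝ) * (addOrderOf t' : ℝ) := by
      exact_mod_cast hle
    refine h5.trans ?_
    gcongr
  rw [div_le_iff₀ (by positivity), dist_eq_norm]
  have h6 : (addOrderOf (t - t') : ℝ) * ‖t - t'‖ ≤ s * s * ‖t - t'‖ := by gcongr
  nlinarith

end FNLM

theorem specFNL (hMES : SpecMES) : SpecFNL := by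
  intro ε K hε
  obtain ⟨Λ₁, h1, hM⟩ := hMES ε (K + 1) hε
  refine ⟨max Λ₁ 17, lt_of_lt_of_le h1 (le_max_left _ _), fun Λ hΛ y => ?_⟩
  have hΛ1 : Λ₁ ≤ Λ := (le_max_left _ _).trans hΛ
  have hΛ17 : (17 : ℝ) ≤ Λ := (le_max_right _ _).trans hΛ
  have hΛ0 : 0 < Λ := by linarith
  have hs0 : 0 < Λ ^ (1 / 4 : ℝ) := Real.rpow_pos_of_pos hΛ0 _
  have hs4 : (Λ ^ (1 / 4 : ℝ)) ^ 4 = Λ := by
    rw [← Real.rpow_natCast, ← Real.rpow_mul hΛ0.le]
    norm_num
  set s := Λ ^ (1 / 4 : ℝ) with hs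
  have hs2 : 2 < s := by
    by_contra h
    push Not at h
    have h3 : s ^ 4 ≤ 2 ^ 4 := by gcongr
    rw [hs4] at h3
    norm_num at h3
    linarith
  have hgap : 4 / Λ < 1 / s ^ 2 := by
    rw [← hs4, div_lt_div_iff₀ (by positivity) (by positivity)]
    have : (2 : ℝ) ^ 2 < s ^ 2 := by gcongr
    nlinarith [pow_pos hs0 2]
  have hK : (Λ ^ (K + 1))⁻¹ ≤ 1 / Λ := by
    rw [one_div]
    apply inv_anti₀ hΛ0
    exact le_self_pow₀ (by linarith) (by omega)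
  have hgood : ∃ t : T, 0 < addOrderOf t ∧ (addOrderOf t : ℝ) ≤ s ∧
      (0 < addOrderOf y → (addOrderOf y : ℝ) ≤ s → t = y) ∧
      ∀ z, dist z y ≤ 1 / Λ → (Λ ^ (K + 1))⁻¹ < dist z t → ∀ t' : T, 0 < addOrderOf t' →
        (addOrderOf t' : ℝ) ≤ s → (Λ ^ (K + 1))⁻¹ < dist z t' := by
    by_cases hex : ∃ t : T, 0 < addOrderOf t ∧ (addOrderOf t : ℝ) ≤ s ∧ dist y t ≤ 2 / Λ
    · have hch : ∃ t : T, 0 < addOrderOf t ∧ (addOrderOf t : ℝ) ≤ s ∧ dist y t ≤ 2 / Λ ∧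
          (0 < addOrderOf y → (addOrderOf y : ℝ) ≤ s → t = y) := by
        by_cases hy : 0 < addOrderOf y ∧ (addOrderOf y : ℝ) ≤ s
        · exact ⟨y, hy.1, hy.2, by rw [dist_self]; positivity, fun _ _ => rfl⟩
        · obtain ⟨t, ht1, ht2, ht3⟩ := hex
          exact ⟨t, ht1, ht2, ht3, fun h1 h2 => absurd ⟨h1, h2⟩ hy⟩
      obtain ⟨t, ht1, ht2, ht3, ht4⟩ := hch
      refine ⟨t, ht1, ht2, ht4, fun z hz1 hz2 t' ht1' ht2' => ?_⟩
      by_cases htt : t' = t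
      · rw [htt]; exact hz2
      · have h5 := FNLM.sep hs0 t t' ht1 ht2 ht1' ht2' (Ne.symm htt)
        have h6 : dist t t' ≤ dist z t + dist z t' := dist_triangle_left _ _ _
        have h7 : dist z t ≤ dist z y + dist y t := dist_triangle _ _ _
        have h8 : 4 / Λ = 1 / Λ + 2 / Λ + 1 / Λ := by ring
        linarith
    · push Not at hex
      refine ⟨0, by rw [addOrderOf_zero]; norm_num, by rw [addOrderOf_zero]; norm_num; linarith,
        fun h1 h2 => ?_, fun z hz1 _ t' ht1' ht2' => ?_⟩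
      · have := hex y h1 h2
        rw [dist_self] at this
        have h3 : 0 < 2 / Λ := by positivity
        linarith
      · have h5 := hex t' ht1' ht2'
        have h6 : dist y t' ≤ dist z y + dist z t' := dist_triangle_left _ _ _
        have h8 : 2 / Λ = 1 / Λ + 1 / Λ := by ring
        linarith
  obtain ⟨t, ht0, hts, hty, hz⟩ := hgood
  refine ⟨t, ht0, hts, hty, fun μ hμ h2 h3 => ?_⟩
  refine (measure_mono ?_).trans (hM Λ hΛ1 μ hμ h2 h3 y)
  rintro z ⟨hz1, hz2⟩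
  rw [Metric.mem_closedBall] at hz1 hz2
  rw [not_le] at hz2
  refine ⟨hz1, hz z hz1 (lt_of_le_of_lt ?_ hz2)⟩
  apply inv_anti₀ (by positivity)
  exact pow_le_pow_right₀ (by linarith) (by omega)

end Pool.Agent.Lib.MP_715eb0_an.AS
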