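import Pool.Agent.Lib.MP_715eb0_an.AS.Spec

/-!
# Module MES: averaging over the times
-/

set_option autoImplicit false

open MeasureTheory
open Pool.Agent.Lib.MP_715eb0_an.NC

namespace Pool.Agent.Lib.MP_715eb0_an.AS

namespace MESM

lemma meas_nsmul (m : ℕ) : Measurable (fun z : T => m • z) :=
  (continuous_nsmul m).measurable

lemma map_two_pow {μ : Measure T} (h : Measure.map (fun x : T => (2 : ℕ) • x) μ = μ) (i : ℕ) :
    Measure.map (fun x : T => (2 ^ i : ℕ) • x) μ = μ := by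
  induction i with
  | zero => simp
  | succ i ih =>
    have e : (fun x : T => (2 ^ (i + 1) : ℕ) • x) =
        (fun x : T => (2 ^ i : ℕ) • x) ∘ (fun x : T => (2 : ℕ) • x) := by
      funext x
      show (2 ^ (i + 1) : ℕ) • x = (2 ^ i : ℕ) • ((2 : ℕ) • x)
      rw [pow_succ', mul_nsmul]
    rw [e, ← Measure.map_map (meas_nsmul _) (meas_nsmul _), h, ih]

lemma map_three_pow {μ : Measure T} (h : Measure.map (fun x : T => (3 : ℕ) • x) μ = μ) (i : ℕ) :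
    Measure.map (fun x : T => (3 ^ i : ℕ) • x) μ = μ := by
  induction i with
  | zero => simp
  | succ i ih =>
    have e : (fun x : T => (3 ^ (i + 1) : ℕ) • x) =
        (fun x : T => (3 ^ i : ℕ) • x) ∘ (fun x : T => (3 : ℕ) • x) := by
      funext x
      show (3 ^ (i + 1) : ℕ) • x = (3 ^ i : ℕ) • ((3 : ℕ) • x)
      rw [pow_succ', mul_nsmul]
    rw [e, ← Measure.map_map (meas_nsmul _) (meas_nsmul _), h, ih]

lemma map_V {μ : Measure T} (h2 : Measure.map (fun x : T => (2 : ℕ) • x) μ = μ)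
    (h3 : Measure.map (fun x : T => (3 : ℕ) • x) μ = μ) (p : ℕ × ℕ) :
    Measure.map (fun x : T => V p • x) μ = μ := by
  have e : (fun x : T => V p • x) =
      (fun x : T => (3 ^ p.2 : ℕ) • x) ∘ (fun x : T => (2 ^ p.1 : ℕ) • x) := by
    funext x
    show V p • x = (3 ^ p.2 : ℕ) • ((2 ^ p.1 : ℕ) • x)
    rw [V, mul_nsmul]
  rw [e, ← Measure.map_map (meas_nsmul _) (meas_nsmul _), map_two_pow h2, map_three_pow h3]

lemma countable_tors : {t : T | 0 < addOrderOf t}.Countable := by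
  have h : {t : T | 0 < addOrderOf t} ⊆ ⋃ n : ℕ, {t : T | 0 < n ∧ addOrderOf t = n} := by
    intro t ht
    rw [Set.mem_iUnion]
    exact ⟨addOrderOf t, ht, rfl⟩
  refine Set.Countable.mono h (Set.countable_iUnion fun n => ?_)
  by_cases hn : 0 < n
  · refine ((AddCircle.finite_setOf_addOrderOf_eq (p := (1 : ℝ)) hn).subset ?_).countable
    intro t ht
    exact ht.2
  · have : {t : T | 0 < n ∧ addOrderOf t = n} = ∅ := by
      ext t
      simp [hn]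
    rw [this]
    exact Set.countable_empty

/-- the set of the statement -/
def A (K : ℕ) (Λ : ℝ) (y : T) : Set T :=
  {z : T | dist z y ≤ 1 / Λ ∧ ∀ t : T, 0 < addOrderOf t →
        (addOrderOf t : ℝ) ≤ Λ ^ (1 / 4 : ℝ) → (Λ ^ K)⁻¹ < dist z t}

lemma meas_A (K : ℕ) (Λ : ℝ) (y : T) : MeasurableSet (A K Λ y) := by
  have e : A K Λ y = {z : T | dist z y ≤ 1 / Λ} ∩ ⋂ t ∈ {t : T | 0 < addOrderOf t ∧
      (addOrderOf t : ℝ) ≤ Λ ^ (1 / 4 : ℝ)}, {z : T | (Λ ^ K)⁻¹ < dist z t} := by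
    ext z
    simp only [A, Set.mem_setOf_eq, Set.mem_inter_iff, Set.mem_iInter, and_imp]
  rw [e]
  refine MeasurableSet.inter ?_ (MeasurableSet.biInter ?_ fun t _ => ?_)
  · exact (isClosed_le (continuous_id.dist continuous_const) continuous_const).measurableSet
  · exact countable_tors.mono fun t ht => ht.1
  · exact (isOpen_lt continuous_const (continuous_id.dist continuous_const)).measurableSet

lemma norm_le (x : ℝ) : ‖((x : ℝ) : T)‖ ≤ |x| := by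
  rw [AddCircle.norm_eq]
  have h := round_le x 0
  simpa using h

lemma near {x y' ρ : ℝ} {p : ℕ × ℕ} (h : dist (V p • ((x : ℝ) : T)) ((y' : ℝ) : T) ≤ ρ) :
    ∃ k : ℤ, |(V p : ℝ) * x - y' - k| ≤ ρ := by
  have e : V p • ((x : ℝ) : T) - ((y' : ℝ) : T) = (((V p : ℝ) * x - y' : ℝ) : T) := by
    rw [← AddCircle.coe_nsmul, ← AddCircle.coe_sub]
    congr 2
    rw [nsmul_eq_mul]
  rw [dist_eq_norm, e, AddCircle.norm_eq] at h
  refine ⟨round ((1 : ℝ)⁻¹ * ((V p : ℝ) * x - y')), ?_⟩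
  rw [mul_one] at h
  exact h

lemma far {K : ℕ} {Λ x : ℝ} {y : T} {p : ℕ × ℕ} (h : V p • ((x : ℝ) : T) ∈ A K Λ y)
    {D : ℕ} {b : ℤ} (hD : 1 ≤ D) (hDΛ : (D : ℝ) ≤ Λ ^ (1 / 4 : ℝ)) :
    (Λ ^ K)⁻¹ < |(V p : ℝ) * x - b / D| := by
  have hD0 : (D : ℝ) ≠ 0 := by
    have : 0 < D := hD
    positivity
  have h0 : D • ((((b : ℝ) / D : ℝ)) : T) = 0 := by
    rw [← AddCircle.coe_nsmul]
    have e : D • ((b : ℝ) / D) = ((b : ℤ) : ℝ) := by
      rw [nsmul_eq_mul]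
      field_simp
    rw [e]
    have := AddCircle.coe_zsmul (p := (1 : ℝ)) (n := b) (x := (1 : ℝ))
    rw [zsmul_eq_mul, mul_one, AddCircle.coe_period, smul_zero] at this
    exact this
  have hdvd : addOrderOf ((((b : ℝ) / D : ℝ)) : T) ∣ D := addOrderOf_dvd_iff_nsmul_eq_zero.2 h0
  have hpos : 0 < addOrderOf ((((b : ℝ) / D : ℝ)) : T) := Nat.pos_of_dvd_of_pos hdvd hD
  have hle : ((addOrderOf ((((b : ℝ) / D : ℝ)) : T) : ℕ) : ℝ) ≤ Λ ^ (1 / 4 : ℝ) :=
    le_trans (by exact_mod_cast Nat.le_of_dvd hD hdvd) hDΛ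
  have h1 := h.2 _ hpos hle
  have e : V p • ((x : ℝ) : T) - ((((b : ℝ) / D : ℝ)) : T) = (((V p : ℝ) * x - b / D : ℝ) : T) := by
    rw [← AddCircle.coe_nsmul, ← AddCircle.coe_sub]
    congr 2
    rw [nsmul_eq_mul]
  rw [dist_eq_norm, e] at h1
  exact h1.trans_le (norm_le _)

end MESM

open MESM

theorem specMES (hCNS : SpecCNS) : SpecMES := by
  classical
  intro ε K hε
  obtain ⟨Λ₀, h1, hc⟩ := hCNS ε K hε
  refine ⟨Λ₀, h1, fun Λ hΛ μ hμ h2 h3 y => ?_⟩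
  obtain ⟨n, hn, hcn⟩ := hc Λ hΛ
  obtain ⟨y', rfl⟩ := QuotientAddGroup.mk_surjective y
  show μ (A K Λ ((y' : ℝ) : T)) ≤ ENNReal.ofReal ε
  have hA := meas_A K Λ ((y' : ℝ) : T)
  set W : Finset (ℕ × ℕ) := Finset.range n ×ˢ Finset.range n with hW
  have hWc : W.card = n * n := by
    rw [hW, Finset.card_product, Finset.card_range]
  have hpre : ∀ p : ℕ × ℕ, MeasurableSet ((fun z : T => V p • z) ⁻¹' A K Λ ((y' : ℝ) : T)) :=
    fun p => meas_nsmul _ hA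
  have hinv : ∀ p : ℕ × ℕ, μ ((fun z : T => V p • z) ⁻¹' A K Λ ((y' : ℝ) : T)) =
      μ (A K Λ ((y' : ℝ) : T)) := by
    intro p
    rw [← Measure.map_apply (meas_nsmul _) hA, map_V h2 h3]
  have hpt : ∀ z : T, ∑ p ∈ W, ((fun z : T => V p • z) ⁻¹' A K Λ ((y' : ℝ) : T)).indicator
      (1 : T → ENNReal) z ≤ ENNReal.ofReal (ε * (n : ℝ) ^ 2) := by
    intro z
    obtain ⟨x, rfl⟩ := QuotientAddGroup.mk_surjective z
    have e1 : ∑ p ∈ W, ((fun z : T => V p • z) ⁻¹' A K Λ ((y' : ℝ) : T)).indicator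
        (1 : T → ENNReal) ((x : ℝ) : T) =
        ((W.filter fun p => V p • ((x : ℝ) : T) ∈ A K Λ ((y' : ℝ) : T)).card : ENNReal) := by
      rw [Finset.card_filter, Nat.cast_sum]
      apply Finset.sum_congr rfl
      intro p _
      rw [Set.indicator_apply]
      simp only [Set.mem_preimage, Pi.one_apply]
      split_ifs <;> simp
    have h4 := hcn x y'
    have hsub : ((W.filter fun p => V p • ((x : ℝ) : T) ∈ A K Λ ((y' : ℝ) : T) :
        Finset (ℕ × ℕ)) : Set (ℕ × ℕ)) ⊆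
        {p : ℕ × ℕ | p.1 < n ∧ p.2 < n ∧ (∃ k : ℤ, |(V p : ℝ) * x - y' - k| ≤ 1 / Λ) ∧
      ∀ (D : ℕ) (b : ℤ), 1 ≤ D → (D : ℝ) ≤ Λ ^ (1 / 4 : ℝ) →
        (Λ ^ K)⁻¹ < |(V p : ℝ) * x - b / D|} := by
      intro p hp
      rw [Finset.mem_coe, Finset.mem_filter, hW, Finset.mem_product, Finset.mem_range,
        Finset.mem_range] at hp
      exact ⟨hp.1.1, hp.1.2, near hp.2.1, fun D b hD hDΛ => far hp.2 hD hDΛ⟩
    have hfin : ({p : ℕ × ℕ | p.1 < n ∧ p.2 < n ∧ (∃ k : ℤ, |(V p : ℝ) * x - y' - k| ≤ 1 / Λ) ∧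
      ∀ (D : ℕ) (b : ℤ), 1 ≤ D → (D : ℝ) ≤ Λ ^ (1 / 4 : ℝ) →
        (Λ ^ K)⁻¹ < |(V p : ℝ) * x - b / D|}).Finite := by
      refine (W.finite_toSet).subset ?_
      intro p hp
      rw [Finset.mem_coe, hW, Finset.mem_product, Finset.mem_range, Finset.mem_range]
      exact ⟨hp.1, hp.2.1⟩
    have h5 := Set.ncard_le_ncard hsub hfin
    rw [Set.ncard_coe_finset] at h5
    show ∑ p ∈ W, ((fun z : T => V p • z) ⁻¹' A K Λ ((y' : ℝ) : T)).indicator
        (1 : T → ENNReal) ((x : ℝ) : T) ≤ _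
    rw [e1, ← ENNReal.ofReal_natCast]
    exact ENNReal.ofReal_le_ofReal ((Nat.cast_le.2 h5).trans h4)
  have hsum : ∑ p ∈ W, μ ((fun z : T => V p • z) ⁻¹' A K Λ ((y' : ℝ) : T)) ≤
      ENNReal.ofReal (ε * (n : ℝ) ^ 2) := by
    calc ∑ p ∈ W, μ ((fun z : T => V p • z) ⁻¹' A K Λ ((y' : ℝ) : T))
        = ∑ p ∈ W, ∫⁻ z, ((fun z : T => V p • z) ⁻¹' A K Λ ((y' : ℝ) : T)).indicator
          (1 : T → ENNReal) z ∂μ := by
          apply Finset.sum_congr rfl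
          intro p _
          rw [lintegral_indicator_one (hpre p)]
      _ = ∫⁻ z, ∑ p ∈ W, ((fun z : T => V p • z) ⁻¹' A K Λ ((y' : ℝ) : T)).indicator
          (1 : T → ENNReal) z ∂μ := by
          rw [lintegral_finset_sum]
          intro p _
          exact measurable_one.indicator (hpre p)
      _ ≤ ∫⁻ _, ENNReal.ofReal (ε * (n : ℝ) ^ 2) ∂μ := lintegral_mono hpt
      _ = ENNReal.ofReal (ε * (n : ℝ) ^ 2) := by simp
  rw [Finset.sum_congr rfl (fun p _ => hinv p), Finset.sum_const, hWc, nsmul_eq_mul,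
    mul_comm ε, ENNReal.ofReal_mul (by positivity)] at hsum
  have hn0 : (0 : ℝ) < n := by exact_mod_cast hn
  have e2 : (((n * n : ℕ)) : ENNReal) = ENNReal.ofReal ((n : ℝ) ^ 2) := by
    rw [← ENNReal.ofReal_natCast]
    congr 1
    push_cast
    ring
  rw [e2] at hsum
  refine (ENNReal.mul_le_mul_iff_right ?_ ENNReal.ofReal_ne_top).1 hsum
  rw [Ne, ENNReal.ofReal_eq_zero, not_le]
  positivity

end Pool.Agent.Lib.MP_715eb0_an.AS
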