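import Pool.Agent.Lib.MP_715eb0_an.NC.Final
import Pool.Agent.Lib.MP_715eb0_an.AS.BUR
import Pool.Agent.Lib.MP_715eb0_an.AS.ALI
import Pool.Agent.Lib.MP_715eb0_an.AS.EXS
import Pool.Agent.Lib.MP_715eb0_an.AS.CNS
import Pool.Agent.Lib.MP_715eb0_an.AS.MES
import Pool.Agent.Lib.MP_715eb0_an.AS.FNL

/-!
# MP_715eb0_an: concentration at all scales, for all invariant measures
-/

namespace Pool.Agent.Lib.MP_715eb0_an.AS

/-- Mass in a small ball sits, up to `ε`, extremely near one rational point of small order. -/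
theorem main : SpecFNL :=
  specFNL (specMES (specCNS (specEXS (NC.specVAN (NC.specVAA Pool.Agent.Lib.MP_d0e829_nt.SS.sub))
    (specBUR NC.specPIG NC.specRDU) specALI)))

end Pool.Agent.Lib.MP_715eb0_an.AS
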