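import Pool.Agent.Lib.MP_715eb0_an.NC.Spec

/-!
# MP_715eb0_an: concentration at ALL scales, for all invariant measures (specifications)

THEOREM. For all `ε > 0` and `K` there is `Λ₀` such that for all `Λ ≥ Λ₀` and all `y` in `ℝ/ℤ` there
is a point `t` of finite order `≤ Λ` (namely `t = y` if the order of `y` is finite and `≤ Λ^(1/4)`)
such that EVERY `x2, x3`-invariant probability measure `μ` on `ℝ/ℤ` satisfies
`μ (B(y, 1/Λ) \ B(t, Λ^(-K))) ≤ ε`.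

So at every scale (not only at polynomial scales `q^(-η)`), and uniformly in the measure, mass in a
small ball sits, up to `ε`, extremely near ONE rational point of small order.

The proof is that of `NC` with a real number `x` in place of `a/q` and `log Λ` in place of `log q`
(gain `(1/4) log Λ` in place of `η log q`); the new case is that the vectors `w`, `k` of `BUD` are
proportional with a factor of small denominator: then the times are aligned along one line, and there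
are few of them (ALI).

All modules are independent: file `Pool/Agent/Lib/MP_715eb0_an/AS/XXX.lean`, import
`Pool.Agent.Lib.MP_715eb0_an.AS.Spec`, namespace `Pool.Agent.Lib.MP_715eb0_an.AS`, theorem
`specXXX (hYYY : SpecYYY) .. : SpecXXX` with the hypotheses in the order of USES, own lemmas in a
namespace `XXXM`. Copy freely from the proved modules `NC/BUD.lean`, `NC/EXT.lean`, `NC/CNT.lean`,
`NC/ARC.lean`.
-/

set_option autoImplicit false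

open MeasureTheory
open Pool.Agent.Lib.MP_715eb0_an.NC

namespace Pool.Agent.Lib.MP_715eb0_an.AS

/-- BUR (300 lines). USES `NC.SpecPIG`, `NC.SpecRDU`. Real version of `NC.SpecBUD`.
PROOF (compare `NC/BUD.lean`). `g = gcd v_j`, `v'_j = v_j / g`, `M = max v'_j = exp (hgt J v)`,
`x' = g x`, so `v_j x = v'_j x'`. Fix `j₀` in `J`, `J' = J \ {j₀}`, `m = |J'| = |J| - 1 ≥ 3`. Let
`r_j = v_j x - y - k_j`, `|r_j| ≤ 1/Λ`, and on `J'`: `w_j = v'_j - v'_{j₀}`, `K_j = k_j - k_{j₀}`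
(integers), `ρ_j = r_j - r_{j₀}`; `x' w_j = K_j + ρ_j`, `|w_j| ≤ M`, `|ρ_j| ≤ 2/Λ`. So
`gram w K = |w|² |ρ|² - (w · ρ)² ≤ |w|² |ρ|² ≤ 4 m² M² Λ^(-2)` (the Gram determinant does not change
if a multiple of `w` is added).
CASE 1, `gram w K ≠ 0`. RDU gives `u, u'` with `3 |u|² |u'|² ≤ 4 gram w K`, so
`4 l1 u l1 u' ≤ 4 m |u| |u'| ≤ 4 m (2/√3) 2 m M / Λ ≤ 10 n² M Λ^(-1/4) ≤ B^(m-2)`. PIG gives
`c' ≠ 0` on `J'`, `|c'_j| ≤ B`, orthogonal to `u, u'`, hence to `w`.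
CASE 2, `gram w K = 0`. `w ≠ 0` (the `v_j` are different). `D = gcd w_j > 0`, `w = D z`, `z`
primitive; `K = κ z` with an integer `κ` (`K_i w_j = K_j w_i`, Bezout for `z`). `Z = max |z_j| ≥ 1`.
CASE 2a, `Z ≤ M Λ^(-1/4)`: `2 l1 z ≤ 2 m Z ≤ 10 n² M Λ^(-1/4) ≤ B^(m-2) ≤ B^(m-1)`, and PIG (one
vector) gives `c' ≠ 0` orthogonal to `z`, hence to `w`.
In the cases 1 and 2a put `c_j = c'_j` on `J'`, `c_{j₀} = - Σ c'_j`, `0` outside `J`: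
`Σ c_j v'_j = Σ c'_j w_j = 0`, `|c_j| ≤ n B`.
CASE 2b, `Z > M Λ^(-1/4)`: `D Z = max |w_j| ≤ M`, so `D ≤ Λ^(1/4)`. Let `δ' = x' - κ / D`,
`δ = δ' / g`. `δ' w_j = ρ_j`, so `|δ'| D Z ≤ 2/Λ` and
`|v_j δ| = |v'_j δ'| ≤ M (2/Λ) / (D Z) ≤ 2 Λ^(-3/4)`. With `b = v'_{j₀} κ`:
`v_j x - b / D = v'_j δ' + (v'_j - v'_{j₀}) κ / D`, and `(v'_j - v'_{j₀}) κ / D` is the integer
`z_j κ` (`0` for `j = j₀`). -/
def SpecBUR : Prop :=
  ∀ (n : ℕ) (J : Finset (Fin n)) (v : Fin n → ℕ) (x y : ℝ) (k : Fin n → ℤ) (Λ : ℝ) (B : ℕ),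
    4 ≤ J.card → (∀ j ∈ J, 0 < v j) → Set.InjOn v J → 1 ≤ Λ →
    (∀ j ∈ J, |(v j : ℝ) * x - y - k j| ≤ 1 / Λ) → 1 ≤ B →
    10 * (n : ℝ) ^ 2 * Real.exp (hgt J v) * Λ ^ (-(1 / 4) : ℝ) ≤ (B : ℝ) ^ (J.card - 3) →
    (∃ c : Fin n → ℤ, c ≠ 0 ∧ (∀ j ∉ J, c j = 0) ∧ (∀ j, |c j| ≤ n * B) ∧
      ∑ j, c j * (v j : ℤ) = 0) ∨
    (∃ (D : ℕ) (b : ℤ) (δ : ℝ), 1 ≤ D ∧ (D : ℝ) ≤ Λ ^ (1 / 4 : ℝ) ∧ ∀ j ∈ J,
      (∃ m : ℤ, (v j : ℝ) * x - b / D - m = v j * δ) ∧ |(v j : ℝ) * δ| ≤ 2 * Λ ^ (-(3 / 4) : ℝ))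

/-- ALI (130 lines). USES nothing. Separated times in a strip.
PROOF. Let `i₀`, `j₀` be the least first and second coordinates of the `p j`, `j ∈ J`; the gcd of the
`V (p j)` is `2^i₀ 3^j₀`; write `p = (i₀ + a, j₀ + b)`, `h = hgt J (V ∘ p)`. Then
`h - K s ≤ a log 2 + b log 3 ≤ h`. The map `(a, b) ↦ (⌊a / s⌋, ⌊b / s⌋)` is injective on the points:
if two different points have the same image, then `|a - a'| < s`, `|b - b'| < s`, and `max / gcd` of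
the pair is at most `2^|a - a'| 3^|b - b'|`, so `hgt ≤ s log 6 < 2 s`. The first coordinate `A` of
the image takes at most `h / (s log 2) + 1` values, and for given `A` (`a` in an interval of length
`s`) `b` is in an interval of length `(K s + s log 2) / log 3`, so the second takes at most `K + 3`
values. As `h ≥ 2 s` (a pair), `|J| ≤ (K + 3) (h / (s log 2) + 1) ≤ (K + 3) 2 h / s`. -/
def SpecALI : Prop :=
  ∀ (n : ℕ) (p : Fin n → ℕ × ℕ) (J : Finset (Fin n)) (s : ℝ) (K : ℕ), 0 < s → 2 ≤ J.card →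
    (∀ i ∈ J, ∀ j ∈ J, i ≠ j → 2 * s ≤ hgt {i, j} (fun j => V (p j))) →
    (∀ i ∈ J, ∀ j ∈ J, Real.log (V (p i)) ≤ Real.log (V (p j)) + K * s) →
    (J.card : ℝ) ≤ 4 * (K + 3) * (hgt J (fun j => V (p j)) / s)

/-- EXS (320 lines). USES `NC.SpecVAN`, BUR, ALI. Few separated times.
PROOF (compare `NC/EXT.lean`). `κ` from VAN, `κ' = 32 (κ + 3) + 32`. Let `K, L` be given and `n` the
least integer `> κ' (K + 1) L`; it is enough to show that for large `Λ` there are no `n` such points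
(if there were more, take `n` of them). `s = log Λ`, `δ₀ = 1 / (32 L)`, `h₀` from VAN for `N = n`,
`δ₀`. `h_J = hgt J (V ∘ p)`; `h_J ≤ h_J'` for `J ⊆ J'`; `2 s ≤ h_J ≤ 2 L s` for `|J| ≥ 2`. Choose
`J`, `|J| ≥ 2`, with `θ = (|J| + κ) / h_J` maximal. `θ ≥ n / (2 L s)`, so
`|J| + κ = θ h_J ≥ n / L ≥ κ'`, `|J| ≥ 4`. `B` the least natural number with
`B^(|J|-3) ≥ 10 n² e^{h_J} Λ^(-1/4)` (the base is `≥ 1`), so
`log B ≤ log 2 + (log (10 n²) + h_J - s/4) / (|J| - 3)`. Use BUR.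
FIRST ALTERNATIVE: VAN with `n B` gives `I`, `|I| ≥ 2`, `I ⊆ J`, with
`(1 - δ₀) h_I ≤ (|I| + κ) log (n B) + h₀`. As `h_I ≥ (|I| + κ) / θ` and `1/θ = h_J / (|J| + κ)`,
`(1 - δ₀) h_J / (|J| + κ) ≤ log (n B) + h₀ ≤ (h_J - s/4) / (|J| - 3) + C₁`,
`C₁ = log 2 + log (10 n²) + log n + h₀`. Multiply by `|J| - 3 ≤ n`, using
`(|J| - 3) / (|J| + κ) = 1 - (κ + 3) / (|J| + κ)`:
`s/4 ≤ δ₀ h_J + (κ + 3) / θ + n C₁ ≤ s/16 + (κ + 3) 2 L s / n + n C₁ ≤ s/8 + n C₁`, false for large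
`s`.
SECOND ALTERNATIVE: `b / D + m` is a fraction with denominator `D ≤ Λ^(1/4)`, so by hypothesis
`Λ^(-K) < |V (p j) δ| ≤ 2 Λ^(-3/4)` for `j ∈ J`, and for `i, j ∈ J`
`V (p i) / V (p j) ≤ 2 Λ^(-3/4) Λ^K ≤ Λ^K`. ALI: `|J| ≤ 4 (K + 3) h_J / s`. But
`|J| ≥ n h_J / (2 L s) - κ ≥ (κ' (K + 1) / 2 - κ / 2) h_J / s` (as `h_J ≥ 2 s`), and
`κ' (K + 1) > 8 (K + 3) + κ`: a contradiction. -/
def SpecEXS : Prop :=
  ∃ κ' : ℕ, ∀ K L : ℕ, 1 ≤ L → ∃ Λ₀ : ℝ, 1 < Λ₀ ∧ ∀ Λ : ℝ, Λ₀ ≤ Λ →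
    ∀ (x y : ℝ) (n : ℕ) (p : Fin n → ℕ × ℕ) (k : Fin n → ℤ),
      (∀ j, Real.log (V (p j)) ≤ 2 * L * Real.log Λ) →
      (∀ j, |(V (p j) : ℝ) * x - y - k j| ≤ 1 / Λ) →
      (∀ i j, i ≠ j → 2 * Real.log Λ ≤ hgt {i, j} (fun j => V (p j))) →
      (∀ (j : Fin n) (D : ℕ) (b : ℤ), 1 ≤ D → (D : ℝ) ≤ Λ ^ (1 / 4 : ℝ) →
        (Λ ^ K)⁻¹ < |(V (p j) : ℝ) * x - b / D|) →
      (n : ℝ) ≤ κ' * (K + 1) * L

/-- CNS (200 lines). USES EXS. The proportion of the times near `y` but not very near a rational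
point of small denominator.
PROOF (compare `NC/CNT.lean`). `L ≥ 35 κ' (K + 1) / ε`, `L ≥ 1`, `s = log Λ`, `n = ⌈L s⌉`; for large
`s`, `log V(p) ≤ n log 6 ≤ 2 L s` for `p` in the square. Let `P` be the set of the statement, `P'` a
maximal subset with pairwise heights `≥ 2 s`; `|P'| ≤ κ' (K + 1) L` by EXS. Every `p = (i, j)` in `P`
has some `p' = (i', j')` in `P'` with height of the pair `< 2 s` (or `p = p'`); `max / gcd` is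
`≥ 2^|i-i'|` and `≥ 3^|j-j'|`, so `|i - i'| < 3 s`, `|j - j'| < 2 s`: at most `(6 s + 1) (4 s + 1) ≤
35 s²` points `p` for each `p'`. `|P| ≤ 35 s² κ' (K + 1) L ≤ ε L² s² ≤ ε n²`. -/
def SpecCNS : Prop :=
  ∀ (ε : ℝ) (K : ℕ), 0 < ε → ∃ Λ₀ : ℝ, 1 < Λ₀ ∧ ∀ Λ : ℝ, Λ₀ ≤ Λ → ∃ n : ℕ, 1 ≤ n ∧ ∀ x y : ℝ,
    ((Set.ncard {p : ℕ × ℕ | p.1 < n ∧ p.2 < n ∧ (∃ k : ℤ, |(V p : ℝ) * x - y - k| ≤ 1 / Λ) ∧
      ∀ (D : ℕ) (b : ℤ), 1 ≤ D → (D : ℝ) ≤ Λ ^ (1 / 4 : ℝ) →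
        (Λ ^ K)⁻¹ < |(V p : ℝ) * x - b / D|} : ℕ) : ℝ) ≤ ε * (n : ℝ) ^ 2

/-- MES (150 lines). USES CNS. Averaging over the times.
PROOF. Let `A` be the set of the statement. The points `t` with `0 < addOrderOf t ≤ Λ^(1/4)` are
finitely many, so `A` is measurable. `μ` is invariant under `z ↦ V(p) • z` (induction), so
`n² μ(A) = Σ_{p ∈ [0,n)²} μ {z | V(p) • z ∈ A} = ∫ #{p ∈ [0,n)² : V(p) • z ∈ A} dμ(z) ≤ ε n²`: for
`z` the class of `x` and `y` the class of `y'`, `V(p) • z ∈ A` implies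
`|V(p) x - y' - k| ≤ 1/Λ` for some integer `k` and `Λ^(-K) < |V(p) x - b/D|` for all `b/D` with
`D ≤ Λ^(1/4)` (the order of the class of `b/D` divides `D`), so the number of these `p` is at most
that of CNS. -/
def SpecMES : Prop :=
  ∀ (ε : ℝ) (K : ℕ), 0 < ε → ∃ Λ₀ : ℝ, 1 < Λ₀ ∧ ∀ Λ : ℝ, Λ₀ ≤ Λ → ∀ μ : Measure T,
    IsProbabilityMeasure μ → Measure.map (fun x : T => (2 : ℕ) • x) μ = μ →
    Measure.map (fun x : T => (3 : ℕ) • x) μ = μ → ∀ y : T,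
      μ {z : T | dist z y ≤ 1 / Λ ∧ ∀ t : T, 0 < addOrderOf t →
        (addOrderOf t : ℝ) ≤ Λ ^ (1 / 4 : ℝ) → (Λ ^ K)⁻¹ < dist z t} ≤ ENNReal.ofReal ε

/-- FNL (120 lines). USES MES. THE THEOREM.
PROOF. Let `K ≥ 1` (for `K = 0` the ball about `t` of radius `1` is everything: `t = y` if its order
is positive and `≤ Λ^(1/4)`, otherwise `t = 0`). Two different points `t, t'` of finite orders
`≤ Λ^(1/4)` satisfy `dist t t' ≥ 1 / (order t * order t') ≥ Λ^(-1/2)`. If some `t` with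
`0 < order t ≤ Λ^(1/4)` has `dist y t ≤ 2 / Λ`, take it (if `y` has such an order, `t = y`). Every
`z` in `B(y, 1/Λ) \ B(t, Λ^(-K))` is in the set of MES: for `t' ≠ t`,
`dist z t' ≥ Λ^(-1/2) - 3/Λ > 1/Λ ≥ Λ^(-K)` for large `Λ`. If there is no such `t` take `t = 0`
(order `1`): every `z` in `B(y, 1/Λ)` has `dist z t' > 2/Λ - 1/Λ ≥ Λ^(-K)` for all `t'`. -/
def SpecFNL : Prop :=
  ∀ (ε : ℝ) (K : ℕ), 0 < ε → ∃ Λ₀ : ℝ, 1 < Λ₀ ∧ ∀ Λ : ℝ, Λ₀ ≤ Λ → ∀ y : T, ∃ t : T,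
    0 < addOrderOf t ∧ (addOrderOf t : ℝ) ≤ Λ ^ (1 / 4 : ℝ) ∧
    (0 < addOrderOf y → (addOrderOf y : ℝ) ≤ Λ ^ (1 / 4 : ℝ) → t = y) ∧
    ∀ μ : Measure T, IsProbabilityMeasure μ → Measure.map (fun x : T => (2 : ℕ) • x) μ = μ →
      Measure.map (fun x : T => (3 : ℕ) • x) μ = μ →
      μ (Metric.closedBall y (1 / Λ) \ Metric.closedBall t (Λ ^ K)⁻¹) ≤ ENNReal.ofReal ε

end Pool.Agent.Lib.MP_715eb0_an.AS
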